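import Mathlib

set_option autoImplicit false
set_option linter.unusedSectionVars false

/-!
# MP_85ff8f_ag: the `sl₂` lemma on `Hom(V, M)`

`V`, `M` are modules with operators `e, f, h` satisfying the relations of `sl₂`.  A linear map
`φ : V → M` which commutes with `e`, has weight `lam` (not a natural number) and is killed by a
power of `f` is zero.
-/

namespace Pool.Agent.H12.OP

section base

variable {k X : Type*} [Field k] [CharZero k] [AddCommGroup X] [Module k X]

/-- `e f^(j+1) v = (j+1) (lam - j) f^j v` for a highest weight vector `v` -/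
lemma sl2_ef (e f h : Module.End k X) (hef : e * f - f * e = h)
    (hhf : h * f - f * h = -(2 : k) • f) (v : X) (lam : k) (he : e v = 0)
    (hh : h v = lam • v) (j : ℕ) :
    h ((f ^ j) v) = (lam - 2 * j) • (f ^ j) v ∧
    e ((f ^ (j + 1)) v) = (((j : k) + 1) * (lam - j)) • (f ^ j) v := by
  have h1 : ∀ w, e (f w) = f (e w) + h w := by
    intro w
    have := congrArg (fun a : Module.End k X => a w) hef
    simp only [LinearMap.sub_apply, Module.End.mul_apply] at this
    rw [← this]; abel
  have h2 : ∀ w, h (f w) = f (h w) - (2 : k) • f w := by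
    intro w
    have := congrArg (fun a : Module.End k X => a w) hhf
    simp only [LinearMap.sub_apply, Module.End.mul_apply, LinearMap.smul_apply] at this
    have h3 : h (f w) = f (h w) + -(2 : k) • f w := by rw [← this]; abel
    rw [h3, neg_smul]; abel
  induction j with
  | zero =>
    refine ⟨by simp [hh], ?_⟩
    rw [zero_add, pow_one, h1, he, map_zero, zero_add, hh]
    simp
  | succ j ih =>
    obtain ⟨i1, i2⟩ := ih
    have e1 : h ((f ^ (j + 1)) v) = (lam - 2 * ((j + 1 : ℕ) : k)) • (f ^ (j + 1)) v := by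
      rw [pow_succ', Module.End.mul_apply, h2, i1, map_smul, ← sub_smul]
      congr 1
      push_cast
      ring
    refine ⟨e1, ?_⟩
    rw [pow_succ' f (j + 1), Module.End.mul_apply, h1, i2, map_smul, e1,
      ← Module.End.mul_apply, ← pow_succ', ← add_smul]
    congr 1
    push_cast
    ring

/-- a highest weight vector whose weight is not a natural number and which is killed by a power
of `f` is zero -/
theorem sl2_zero (e f h : Module.End k X) (hef : e * f - f * e = h)
    (hhf : h * f - f * h = -(2 : k) • f) (v : X) (lam : k) (he : e v = 0)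
    (hh : h v = lam • v) (hlam : ∀ j : ℕ, lam ≠ (j : k)) (N : ℕ) (hN : (f ^ N) v = 0) :
    v = 0 := by
  induction N with
  | zero => simpa using hN
  | succ N ih =>
    refine ih ?_
    have h1 := (sl2_ef e f h hef hhf v lam he hh N).2
    rw [hN, map_zero] at h1
    rcases smul_eq_zero.mp h1.symm with h2 | h2
    · exfalso
      rcases mul_eq_zero.mp h2 with h3 | h3
      · have : ((N + 1 : ℕ) : k) = 0 := by push_cast; exact h3
        exact absurd this (Nat.cast_ne_zero.mpr (by omega))
      · exact hlam N (sub_eq_zero.mp h3)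
    · exact h2

end base

section hom

variable {k V M : Type*} [Field k] [CharZero k] [AddCommGroup V] [Module k V]
  [AddCommGroup M] [Module k M]

/-- composition on the left -/
def Lc (a : Module.End k M) : Module.End k (V →ₗ[k] M) where
  toFun φ := a ∘ₗ φ
  map_add' _ _ := LinearMap.comp_add _ _ _
  map_smul' _ _ := LinearMap.comp_smul _ _ _

/-- composition on the right -/
def Rc (b : Module.End k V) : Module.End k (V →ₗ[k] M) where
  toFun φ := φ ∘ₗ b
  map_add' _ _ := LinearMap.add_comp _ _ _
  map_smul' _ _ := LinearMap.smul_comp _ _ _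

lemma Lc_apply (a : Module.End k M) (φ : V →ₗ[k] M) (v : V) : Lc a φ v = a (φ v) := rfl

lemma Rc_apply (b : Module.End k V) (φ : V →ₗ[k] M) (v : V) : Rc b φ v = φ (b v) := rfl

lemma LR_nil (a : Module.End k M) (b : Module.End k V) (n : ℕ) :
    ∀ (p q : ℕ), p + q = n → ∀ ψ : V →ₗ[k] M, (∀ v, (a ^ p) (ψ v) = 0) →
      (∀ v, ψ ((b ^ q) v) = 0) →
      ((Lc a - Rc b : Module.End k (V →ₗ[k] M)) ^ n) ψ = 0 := by
  induction n with
  | zero =>
    intro p q hpq ψ h1 _
    obtain rfl : p = 0 := by omega
    refine LinearMap.ext fun v => ?_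
    simpa using h1 v
  | succ n ih =>
    intro p q hpq ψ h1 h2
    rcases Nat.eq_zero_or_pos p with hp | hp
    · subst hp
      have : ψ = 0 := LinearMap.ext fun v => by simpa using h1 v
      rw [this, map_zero]
    rcases Nat.eq_zero_or_pos q with hq | hq
    · subst hq
      have : ψ = 0 := LinearMap.ext fun v => by simpa using h2 v
      rw [this, map_zero]
    obtain ⟨p, rfl⟩ : ∃ r, p = r + 1 := ⟨p - 1, by omega⟩
    obtain ⟨q, rfl⟩ : ∃ r, q = r + 1 := ⟨q - 1, by omega⟩
    have e1 : ((Lc a - Rc b : Module.End k (V →ₗ[k] M)) ^ n) (Lc a ψ) = 0 := by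
      refine ih p (q + 1) (by omega) (Lc a ψ) (fun v => ?_) (fun v => ?_)
      · rw [Lc_apply, ← Module.End.mul_apply, ← pow_succ]
        exact h1 v
      · rw [Lc_apply, h2, map_zero]
    have e2 : ((Lc a - Rc b : Module.End k (V →ₗ[k] M)) ^ n) (Rc b ψ) = 0 := by
      refine ih (p + 1) q (by omega) (Rc b ψ) (fun v => ?_) (fun v => ?_)
      · rw [Rc_apply]
        exact h1 _
      · rw [Rc_apply, ← Module.End.mul_apply, ← pow_succ']
        exact h2 v
    rw [pow_succ, Module.End.mul_apply, LinearMap.sub_apply, map_sub, e1, e2, sub_zero]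

/-- **The `sl₂` lemma on `Hom(V, M)`.** -/
theorem sl2Hom (eV fV hV : Module.End k V) (eM fM hM : Module.End k M)
    (hV1 : eV * fV - fV * eV = hV) (hV2 : hV * fV - fV * hV = -(2 : k) • fV)
    (hM1 : eM * fM - fM * eM = hM) (hM2 : hM * fM - fM * hM = -(2 : k) • fM)
    (φ : V →ₗ[k] M) (he : ∀ v, eM (φ v) = φ (eV v)) (lam : k) (hlam : ∀ j : ℕ, lam ≠ (j : k))
    (hh : ∀ v, hM (φ v) = φ (hV v) + lam • φ v)
    (N : ℕ) (hfV : ∀ v, (fV ^ N) v = 0) (hfM : ∀ v, (fM ^ N) (φ v) = 0) : φ = 0 := by
  have key : ∀ (a b c : Module.End k M) (a' b' c' : Module.End k V) (t : k),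
      a * b - b * a = t • c → a' * b' - b' * a' = t • c' →
      (Lc a - Rc a' : Module.End k (V →ₗ[k] M)) * (Lc b - Rc b')
        - (Lc b - Rc b') * (Lc a - Rc a') = t • (Lc c - Rc c') := by
    intro a b c a' b' c' t h1 h2
    refine LinearMap.ext fun ψ => LinearMap.ext fun v => ?_
    have h3 : ∀ w, a (b w) - b (a w) = t • c w := fun w => by
      have := congrArg (fun g : Module.End k M => g w) h1
      simpa only [LinearMap.sub_apply, Module.End.mul_apply, LinearMap.smul_apply] using this
    have h4 : ∀ w, a' (b' w) - b' (a' w) = t • c' w := fun w => by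
      have := congrArg (fun g : Module.End k V => g w) h2
      simpa only [LinearMap.sub_apply, Module.End.mul_apply, LinearMap.smul_apply] using this
    simp only [LinearMap.sub_apply, Module.End.mul_apply, Lc_apply, Rc_apply, map_sub,
      LinearMap.smul_apply]
    rw [smul_sub, ← h3, ← map_smul, ← h4, map_sub]
    abel
  have k1 := key eM fM hM eV fV hV 1 (by rw [one_smul, hM1]) (by rw [one_smul, hV1])
  have k2 := key hM fM fM hV fV fV (-2) hM2 hV2
  refine sl2_zero (Lc eM - Rc eV) (Lc fM - Rc fV) (Lc hM - Rc hV) (by rw [k1, one_smul]) k2 φ lam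
    ?_ ?_ hlam (N + N) ?_
  · refine LinearMap.ext fun v => ?_
    rw [LinearMap.sub_apply, LinearMap.sub_apply, Lc_apply, Rc_apply, he, sub_self]
    rfl
  · refine LinearMap.ext fun v => ?_
    rw [LinearMap.sub_apply, LinearMap.sub_apply, Lc_apply, Rc_apply, hh, add_sub_cancel_left]
    rfl
  · exact LR_nil fM fV (N + N) N N rfl φ hfM (fun v => by rw [hfV, map_zero])

end hom

end Pool.Agent.H12.OP
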