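import Pool.Agent.H40.OP.Lift
import Pool.Agent.H20.OPF.Defs

set_option autoImplicit false
set_option linter.unusedSectionVars false

/-!
# Full Ottaviani-Paoletti, part (T): definitions

`S : Fk σ k (End F) (e + 1)`, `A : Gr S`, `o : σ` (the variable `c`), `K : BiK k F e`.

* `Cmp S A o K` : `K` is the bicomplex attached to `S`, `A`, `o`.
* `Cl K s b m` : the closed leading terms (`s` letters outside `c A`, `b` letters in `c A`).
* `GZ` : closed leading terms without letters `μ o ≥ 2` (the bi-cycles over the other variables).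
* `CC j` : products of `j` letters `μ o ≥ 2` with elements of `GZ`.
-/

open MvPolynomial

namespace Pool.Agent.H12.OP

open Pool.Agent.H27.OP Pool.Agent.H80.OP Pool.Agent.H20.OPF

variable {σ k F : Type} [Fintype σ] [Field k] [AddCommGroup F] [Module k F] {e : ℕ}

/-- the bicomplex `K` comes from the Fock space `S`, `A` and the variable `o` -/
structure Cmp (S : Fk σ k (Module.End k F) (e + 1)) (A : Gr S) (o : σ) (K : BiK k F e) : Prop where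
  dS_eq : ∀ ω, K.dS ω = dS S o ω
  dA_eq : ∀ ω, K.dA ω = dA S o ω
  c_eq : ∀ ω, K.c ω = S.m (X o) ω
  rho_eq : ∀ ω, K.rho ω = A.rho o ω
  G_iff : ∀ {a b m : ℕ} {ω : F}, ω ∈ K.G a b m ↔ ω ∈ A.G (a + b) m ∧ N0 S o ω = (a : k) • ω
  rho_E : ∀ μ ω, K.rho (S.E μ ω) = S.E μ (K.rho ω)
  rho_T : ∀ x, x ≠ o → ∀ ω, K.rho (S.T x ω) = S.T x (K.rho ω)
  T_rho : ∀ ω, S.T o (K.rho ω) = 0
  rho_of_T : ∀ ω, S.T o ω = 0 → K.rho ω = ω
  J_S : ∀ {b m : ℕ} {ω : F}, ω ∈ K.G 0 b m → ∀ μ ∈ Mo σ (e + 1), μ o = 0 → S.J μ ω = 0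
  J_A : ∀ {a m : ℕ} {ω : F}, ω ∈ K.G a 0 m → ∀ μ ∈ Mo σ (e + 1), 1 ≤ μ o → S.J μ ω = 0

/-- closed leading terms -/
def Cl (K : BiK k F e) (s b m : ℕ) : Submodule k F where
  carrier := {y | y ∈ K.G s b m ∧ K.rho y = y ∧ K.dS y = 0 ∧ K.rho (K.dA y) = 0}
  add_mem' := by
    rintro x y ⟨h1, h2, h3, h4⟩ ⟨g1, g2, g3, g4⟩
    exact ⟨add_mem h1 g1, by rw [map_add, h2, g2], by rw [map_add, h3, g3, add_zero],
      by rw [map_add, map_add, h4, g4, add_zero]⟩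
  zero_mem' := ⟨zero_mem _, map_zero _, map_zero _, by rw [map_zero, map_zero]⟩
  smul_mem' := by
    rintro t x ⟨h1, h2, h3, h4⟩
    exact ⟨Submodule.smul_mem _ _ h1, by rw [map_smul, h2], by rw [map_smul, h3, smul_zero],
      by rw [map_smul, map_smul, h4, smul_zero]⟩

lemma mem_Cl {K : BiK k F e} {s b m : ℕ} {y : F} : y ∈ Cl K s b m ↔
    y ∈ K.G s b m ∧ K.rho y = y ∧ K.dS y = 0 ∧ K.rho (K.dA y) = 0 := Iff.rfl

/-- closed leading terms without letters `μ o ≥ 2` -/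
def GZ (S : Fk σ k (Module.End k F) (e + 1)) (o : σ) (K : BiK k F e) (s i m : ℕ) :
    Submodule k F where
  carrier := {y | y ∈ Cl K s i m ∧ ∀ μ ∈ Mo σ (e + 1), 2 ≤ μ o → S.J μ y = 0}
  add_mem' := by
    rintro x y ⟨h1, h2⟩ ⟨g1, g2⟩
    exact ⟨add_mem h1 g1, fun μ hμ h => by rw [map_add, h2 μ hμ h, g2 μ hμ h, add_zero]⟩
  zero_mem' := ⟨zero_mem _, fun _ _ _ => map_zero _⟩
  smul_mem' := by
    rintro t x ⟨h1, h2⟩
    exact ⟨Submodule.smul_mem _ _ h1, fun μ hμ h => by rw [map_smul, h2 μ hμ h, smul_zero]⟩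

lemma mem_GZ {S : Fk σ k (Module.End k F) (e + 1)} {o : σ} {K : BiK k F e} {s i m : ℕ} {y : F} :
    y ∈ GZ S o K s i m ↔ y ∈ Cl K s i m ∧ ∀ μ ∈ Mo σ (e + 1), 2 ≤ μ o → S.J μ y = 0 := Iff.rfl

/-- products of `j` letters `μ o ≥ 2` with elements of `GZ s i m` -/
def CC (S : Fk σ k (Module.End k F) (e + 1)) (o : σ) (K : BiK k F e) (s i m : ℕ) :
    ℕ → Submodule k F
  | 0 => GZ S o K s i m
  | j + 1 => Submodule.span k {y | ∃ μ ∈ Mo σ (e + 1), 2 ≤ μ o ∧ ∃ ω ∈ CC S o K s i m j,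
      y = S.E μ ω}

/-- the part of `X o ∂_x` which changes a letter `μ o = 0` into a letter `μ o = 1` -/
noncomputable def e1 (S : Fk σ k (Module.End k F) (e + 1)) (o x : σ) : Module.End k F :=
  ∑ μ ∈ (Mo σ (e + 1)).filter (fun μ => μ o = 0), S.Ee (X o * pderiv x (monomial μ 1)) * S.J μ

/-- the rest of `X o ∂_x` -/
noncomputable def e0 (S : Fk σ k (Module.End k F) (e + 1)) (o x : σ) : Module.End k F :=
  S.D (X o) x - e1 S o x

/-! ### the external factor `(P_(d-2))^(⊗ j)` -/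

/-- the space `V_j = (P_(d-2))^(⊗ j)` (`d - 2 = e - 1`) with the derivations `X_x ∂_y` and the map
`g_1 ⊗ … ⊗ g_j ↦ E(X_o^2 g_1) … E(X_o^2 g_j)`. -/
structure KV (S : Fk σ k (Module.End k F) (e + 1)) (o : σ) (j : ℕ) where
  V : Type
  [ac : AddCommGroup V]
  [md : Module k V]
  κ : V →ₗ[k] Module.End k F
  DV : σ → σ → Module.End k V
  int : ∀ x y, y ≠ o → ∀ β, S.D (X x) y * κ β = κ β * S.D (X x) y + κ (DV x y β)
  into : ∀ β, S.D (X o) o * κ β = κ β * S.D (X o) o + κ (DV o o β) + ((2 * j : ℕ) : k) • κ β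
  rel1 : ∀ x, x ≠ o → DV o x * DV x o - DV x o * DV o x = DV o o - DV x x
  rel2 : ∀ x, x ≠ o → (DV o o - DV x x) * DV x o - DV x o * (DV o o - DV x x)
    = -(2 : k) • DV x o
  nil : ∀ x, x ≠ o → ∃ N : ℕ, DV x o ^ N = 0
  /-- `κ β` is a combination of products of `j` letters `μ o ≥ 2` -/
  span : ∀ β, κ β ∈ Submodule.span k {T : Module.End k F | ∃ L : List (σ →₀ ℕ), L.length = j ∧
    (∀ μ ∈ L, μ ∈ Mo σ (e + 1) ∧ 2 ≤ μ o) ∧ T = (L.map S.E).prod}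
  surj : ∀ L : List (σ →₀ ℕ), L.length = j → (∀ μ ∈ L, μ ∈ Mo σ (e + 1) ∧ 2 ≤ μ o) →
    ∃ β, κ β = (L.map S.E).prod

attribute [instance] KV.ac KV.md

end Pool.Agent.H12.OP
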