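import Pool.Agent.H12.OP.T5
import Pool.Agent.H40.OP.StepOf

set_option autoImplicit false

/-!
# Full Ottaviani-Paoletti: the step of the main induction from the shape theorem
-/

open MvPolynomial

namespace Pool.Agent.H12.OP

open Pool.Agent.H27.OP Pool.Agent.H20.OPF

/-- the step `Step d` from the shape theorem in degree `d` -/
theorem step_of_shape {d : ℕ} (hd : 2 ≤ d)
    (hS : ∀ (N r : ℕ) (B : Bs (Fin (r + 1)) ℂ N d), ShapeStatement (AK B) (0 : Fin (r + 1))) :
    Step d :=
  Pool.Agent.H40.OP.step_of hd (fun _ _ _ _ _ _ C H h he hp _ hw hz => final C he hp H h hw hz) hS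

/-- everything up to the shape theorem, the case `d = 1`, the case of no variables and the reduction
of `K` to `2 d` -/
theorem known_of_shape (h1 : Known 1) (h0 : ∀ d, 2 ≤ d → ∀ p, Exact 0 d p (2 * d))
    (hk : ∀ d, 2 ≤ d → KRed d)
    (hS : ∀ (d : ℕ), 2 ≤ d → ∀ (N r : ℕ) (B : Bs (Fin (r + 1)) ℂ N d),
      ShapeStatement (AK B) (0 : Fin (r + 1))) :
    ∀ d, 1 ≤ d → Known d :=
  main_of h1 h0 hk fun d hd => step_of_shape hd (hS d hd)

end Pool.Agent.H12.OP
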