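import Pool.Agent.H40.OP.KV
import Pool.Agent.H30.OP.Nil

set_option autoImplicit false
set_option linter.unusedSectionVars false

/-!
# Full Ottaviani-Paoletti, part (T1) (helper40, helper30): the spaces `V_j`, nilpotency of `X x ∂_o`

`V_0 = k`, `V_(j+1) = V_1 ⊗ V_j`, `V_1 = homogeneousSubmodule σ k (e - 1)` with the operators
`g ↦ X x * pderiv y g`; `κ (g ⊗ β) = S.Ee (X o ^ 2 * g) * κ β`.
-/

open MvPolynomial

namespace Pool.Agent.H12.OP

open Pool.Agent.H27.OP Pool.Agent.H80.OP Pool.Agent.H20.OPF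

variable {σ k F : Type} [Fintype σ] [Field k] [AddCommGroup F] [Module k F] {e : ℕ}

theorem exists_KV (S : Fk σ k (Module.End k F) (e + 1)) (o : σ) (he : 1 ≤ e) (j : ℕ) :
    Nonempty (KV S o j) :=
  Pool.Agent.H40.OP.exists_KV' S o he j

/-- `X x ∂_o` is nilpotent on every graded piece -/
theorem nil_D [CharZero k] {S : Fk σ k (Module.End k F) (e + 1)} (A : Gr S) {o x : σ}
    (hx : x ≠ o) (p m : ℕ) : ∃ N : ℕ, ∀ ω ∈ A.G p m, (S.D (X x) o ^ N) ω = 0 :=
  Pool.Agent.H30.OP.nil_D A hx p m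

end Pool.Agent.H12.OP
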