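import Pool.Agent.H12.OP.T5a
import Pool.Agent.H95.OP.T2d
import Pool.Agent.H34.OP2.T2x
import Pool.Agent.H34.OP2.T2y
import Pool.Agent.H34.OP2.T2z

set_option autoImplicit false
set_option linter.unusedSectionVars false

/-!
# Full Ottaviani-Paoletti, part (T2): operators on the bicomplex, peeling

Proofs: helper34 (H34/OP2), helper95 (H95/OP/T2d), helper12 (T2e, T5a).
-/

open MvPolynomial

namespace Pool.Agent.H12.OP

open Pool.Agent.H27.OP Pool.Agent.H80.OP Pool.Agent.H20.OPF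

variable {σ k F : Type} [Fintype σ] [Field k] [AddCommGroup F] [Module k F] {e : ℕ}
variable {S : Fk σ k (Module.End k F) (e + 1)} {A : Gr S} {o : σ} {K : BiK k F e}

theorem D_eq (C : Cmp S A o K) (ω : F) : K.D ω = S.del ω := by
  rw [K.D_apply, C.dS_eq, C.dA_eq, C.c_eq, del_eq_dS_dA S o, LinearMap.add_apply,
    Module.End.mul_apply]

theorem D_comm (C : Cmp S A o K) (x y : σ) (ω : F) :
    K.D (S.D (X x) y ω) = S.D (X x) y (K.D ω) := by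
  rw [D_eq C, D_eq C]
  exact (ev (S.D_del (isHomogeneous_X _ _) y) ω).symm

theorem E_Cl (C : Cmp S A o K) {μ : σ →₀ ℕ} (hμ : μ ∈ Mo σ (e + 1)) (h2 : 2 ≤ μ o) {s b m : ℕ}
    {y : F} (hy : y ∈ Cl K s b m) : S.E μ y ∈ Cl K s (b + 1) m :=
  Pool.Agent.H95.OP.E_Cl C hμ h2 hy

theorem CC_le_Cl (C : Cmp S A o K) (s i m j : ℕ) : CC S o K s i m j ≤ Cl K s (i + j) m :=
  Pool.Agent.H95.OP.CC_le_Cl C s i m j

theorem peel [CharZero k] (C : Cmp S A o K) (s b m : ℕ) :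
    Cl K s b m ≤ ⨆ (j : ℕ) (i : ℕ) (_ : i + j = b), CC S o K s i m j :=
  Pool.Agent.H95.OP.peel C s b m

theorem Dxy_G (C : Cmp S A o K) {x y : σ} (hx : x ≠ o) (hy : y ≠ o) {a b m : ℕ} {ω : F}
    (h : ω ∈ K.G a b m) : S.D (X x) y ω ∈ K.G a b m :=
  Pool.Agent.H34.OP2.Dxy_G C hx hy h

theorem Doo_G (C : Cmp S A o K) {a b m : ℕ} {ω : F}
    (h : ω ∈ K.G a b m) : S.D (X o) o ω ∈ K.G a b m :=
  Pool.Agent.H34.OP2.Doo_G C h

theorem rho_Dxy (C : Cmp S A o K) {x y : σ} (hx : x ≠ o) (hy : y ≠ o) (ω : F) :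
    K.rho (S.D (X x) y ω) = S.D (X x) y (K.rho ω) :=
  Pool.Agent.H34.OP2.rho_Dxy C hx hy ω

theorem rho_Doo (C : Cmp S A o K) (ω : F) :
    K.rho (S.D (X o) o ω) = K.rho (S.D (X o) o (K.rho ω)) :=
  Pool.Agent.H34.OP2.rho_Doo C ω

theorem Dxy_GZ [CharZero k] (C : Cmp S A o K) {x y : σ} (hx : x ≠ o) (hy : y ≠ o) {s i m : ℕ}
    {z : F} (h : z ∈ GZ S o K s i m) : S.D (X x) y z ∈ GZ S o K s i m :=
  Pool.Agent.H34.OP2.Dxy_GZ C hx hy h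

theorem Doo_GZ [CharZero k] (C : Cmp S A o K) {s i m : ℕ} {z : F} (h : z ∈ GZ S o K s i m) :
    S.D (X o) o z = (i : k) • z :=
  Doo_GZ' C h

theorem e1_G (C : Cmp S A o K) {x : σ} (_hx : x ≠ o) {a b m : ℕ} {ω : F}
    (h : ω ∈ K.G (a + 1) b m) : e1 S o x ω ∈ K.G a (b + 1) m :=
  Pool.Agent.H34.OP2.e1_G C h

theorem e1_G0 [CharZero k] (C : Cmp S A o K) {x : σ} (_hx : x ≠ o) {b m : ℕ} {ω : F}
    (h : ω ∈ K.G 0 b m) : e1 S o x ω = 0 :=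
  Pool.Agent.H34.OP2.e1_G0 C h

theorem e0_G (C : Cmp S A o K) {x : σ} (_hx : x ≠ o) {a b m : ℕ} {ω : F}
    (h : ω ∈ K.G a b m) : e0 S o x ω ∈ K.G a b m :=
  Pool.Agent.H34.OP2.e0_G C h

theorem rho_e0 (C : Cmp S A o K) {x : σ} (_hx : x ≠ o) (ω : F) :
    K.rho (e0 S o x ω) = K.rho (e0 S o x (K.rho ω)) :=
  Pool.Agent.H34.OP2.rho_e0 C ω

theorem kappa_CC (C : Cmp S A o K) {j : ℕ} (Q : KV S o j) (β : Q.V) {s i m : ℕ} {z : F}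
    (h : z ∈ GZ S o K s i m) : Q.κ β z ∈ CC S o K s i m j :=
  Pool.Agent.H95.OP.kappa_CC C Q β h

theorem CC_le_kappa (C : Cmp S A o K) {j : ℕ} (Q : KV S o j) {s i m : ℕ} :
    CC S o K s i m j ≤ Submodule.span k {y | ∃ β, ∃ z ∈ GZ S o K s i m, y = Q.κ β z} :=
  Pool.Agent.H95.OP.CC_le_kappa C Q

/-- leading term of `X o ∂_x (κ β z)` -/
theorem e0_kappa [CharZero k] (C : Cmp S A o K) {x : σ} (hx : x ≠ o) {j : ℕ} (Q : KV S o j)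
    (β : Q.V) {s i m : ℕ} {z : F} (h : z ∈ GZ S o K s i m) :
    ∃ w : F, K.rho (e0 S o x (Q.κ β z)) = Q.κ (Q.DV o x β) z + w ∧ (i = 0 → w = 0) ∧
      ∀ i', i = i' + 1 → w ∈ CC S o K s i' m (j + 1) :=
  e0_kappa' C (fun {s i m j} => CC_le_Cl C s i m j) hx Q β h

/-- `κ β (x^ν z)`, `ν o = 0`, is `dS` of a leading term -/
theorem mul_kappa [CharZero k] (C : Cmp S A o K) {j : ℕ} (Q : KV S o j) (β : Q.V) {s i m : ℕ}
    {z : F} (h : z ∈ GZ S o K s i m) {ν : σ →₀ ℕ} (hν : ν ∈ Mo σ (e + 1)) (h0 : ν o = 0) :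
    S.m (monomial ν 1) z ∈ GZ S o K s i (m + (e + 1)) ∧
    ∃ y ∈ K.G (s + 1) (i + j) m, K.rho y = y ∧ K.rho (K.dA y) = 0 ∧
      K.dS y = Q.κ β (S.m (monomial ν 1) z) :=
  mul_kappa' C (fun {s i m j} => CC_le_Cl C s i m j) Q β h hν h0

end Pool.Agent.H12.OP
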