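import Pool.Agent.H12.OP.TDefs

set_option autoImplicit false
set_option linter.unusedSectionVars false

/-!
# Full Ottaviani-Paoletti, part (T2b): products of letters `μ o ≥ 2`, `mul_kappa`, `e0_kappa`
-/

open MvPolynomial

namespace Pool.Agent.H12.OP

open Pool.Agent.H27.OP Pool.Agent.H80.OP Pool.Agent.H20.OPF

variable {σ k F : Type} [Fintype σ] [Field k] [AddCommGroup F] [Module k F] {e : ℕ}

section ring

variable {O : Type*} [Ring O] [Algebra k O] {d : ℕ} (S : Fk σ k O d) (o : σ)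

lemma JE' {μ ν : σ →₀ ℕ} (hμ : μ ∈ Mo σ d) (hν : ν ∈ Mo σ d) (h : μ ≠ ν) :
    S.J μ * S.E ν = -(S.E ν * S.J μ) := S.JE μ hμ ν hν h

/-- `∑ m (g μ) J_μ` over a set of letters not containing `ν` anticommutes with `E ν` -/
lemma sumJ_E (s : Finset (σ →₀ ℕ)) (hs : s ⊆ Mo σ d) (g : (σ →₀ ℕ) → MvPolynomial σ k)
    {ν : σ →₀ ℕ} (hν : ν ∈ Mo σ d) (h : ν ∉ s) :
    (∑ μ ∈ s, S.m (g μ) * S.J μ) * S.E ν = -(S.E ν * ∑ μ ∈ s, S.m (g μ) * S.J μ) := by
  rw [Finset.sum_mul, Finset.mul_sum, ← Finset.sum_neg_distrib]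
  refine Finset.sum_congr rfl fun μ hμ => ?_
  rw [mul_assoc, S.JE μ (hs hμ) ν hν (fun h' => h (h' ▸ hμ)), mul_neg, ← mul_assoc, S.mE, mul_assoc]

/-- the same sum with a letter `ν` of the set -/
lemma sumJ_E_self (s : Finset (σ →₀ ℕ)) (hs : s ⊆ Mo σ d) (g : (σ →₀ ℕ) → MvPolynomial σ k)
    {ν : σ →₀ ℕ} (hν : ν ∈ s) :
    (∑ μ ∈ s, S.m (g μ) * S.J μ) * S.E ν = S.m (g ν) - S.E ν * ∑ μ ∈ s, S.m (g μ) * S.J μ := by
  classical
  rw [Finset.sum_mul, Finset.mul_sum]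
  have h : ∀ μ ∈ s, S.m (g μ) * S.J μ * S.E ν
      = (if μ = ν then S.m (g ν) else 0) - S.E ν * (S.m (g μ) * S.J μ) := by
    intro μ hμ
    by_cases h : μ = ν
    · subst h
      rw [if_pos rfl, mul_assoc, S.JEs μ (hs hμ), mul_sub, mul_one, ← mul_assoc, S.mE, mul_assoc]
    · rw [if_neg h, mul_assoc, S.JE μ (hs hμ) ν (hs hν) h, mul_neg, ← mul_assoc, S.mE, mul_assoc,
        zero_sub]
  rw [Finset.sum_congr rfl h, Finset.sum_sub_distrib, Finset.sum_ite_eq' s ν, if_pos hν]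

lemma sumJ_J (s : Finset (σ →₀ ℕ)) (g : (σ →₀ ℕ) → MvPolynomial σ k) (ν : σ →₀ ℕ) :
    (∑ μ ∈ s, S.m (g μ) * S.J μ) * S.J ν = -(S.J ν * ∑ μ ∈ s, S.m (g μ) * S.J μ) := by
  rw [Finset.sum_mul, Finset.mul_sum, ← Finset.sum_neg_distrib]
  refine Finset.sum_congr rfl fun μ _ => ?_
  rw [mul_assoc, S.JJ, mul_neg, ← mul_assoc, S.mJ, mul_assoc]

lemma sumJ_m (s : Finset (σ →₀ ℕ)) (g : (σ →₀ ℕ) → MvPolynomial σ k) (a : MvPolynomial σ k) :
    (∑ μ ∈ s, S.m (g μ) * S.J μ) * S.m a = S.m a * ∑ μ ∈ s, S.m (g μ) * S.J μ := by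
  rw [Finset.sum_mul, Finset.mul_sum]
  refine Finset.sum_congr rfl fun μ _ => ?_
  rw [mul_assoc, ← S.mJ, ← mul_assoc, S.mm, mul_assoc]

lemma N0_E0 {ν : σ →₀ ℕ} (hν : ν ∈ Mo σ d) (h : ν o = 0) :
    N0 S o * S.E ν = S.E ν * N0 S o + S.E ν := by
  classical
  unfold N0
  rw [Finset.sum_mul, Finset.mul_sum]
  have h1 : ∀ μ ∈ (Mo σ d).filter (fun μ => μ o = 0), S.E μ * S.J μ * S.E ν
      = S.E ν * (S.E μ * S.J μ) + (if μ = ν then S.E ν else 0) := by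
    intro μ hμ
    obtain ⟨h2, _⟩ := Finset.mem_filter.mp hμ
    by_cases h3 : μ = ν
    · subst h3
      rw [if_pos rfl, mul_assoc, S.JEs μ h2, mul_sub, mul_one, ← mul_assoc]
      have h5 : S.E μ * S.E μ * S.J μ = -(S.E μ * S.E μ * S.J μ) := by
        conv_lhs => rw [S.EE μ μ, neg_mul]
      rw [sub_eq_add_neg, add_comm]
      congr 1
      exact h5.symm
    · rw [if_neg h3, add_zero, mul_assoc, S.JE μ h2 ν hν h3, mul_neg, ← mul_assoc, S.EE μ ν,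
        neg_mul, neg_neg, mul_assoc]
  rw [Finset.sum_congr rfl h1, Finset.sum_add_distrib, Finset.sum_ite_eq' _ ν,
    if_pos (Finset.mem_filter.mpr ⟨hν, h⟩)]

lemma N0_E1 {ν : σ →₀ ℕ} (hν : ν ∈ Mo σ d) (h : ν o ≠ 0) :
    N0 S o * S.E ν = S.E ν * N0 S o := by
  unfold N0
  rw [Finset.sum_mul, Finset.mul_sum]
  refine Finset.sum_congr rfl fun μ hμ => ?_
  obtain ⟨h2, h4⟩ := Finset.mem_filter.mp hμ
  have h3 : μ ≠ ν := fun h5 => h (h5 ▸ h4)
  rw [mul_assoc, S.JE μ h2 ν hν h3, mul_neg, ← mul_assoc, S.EE μ ν, neg_mul, neg_neg, mul_assoc]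

lemma N0_J1 {ν : σ →₀ ℕ} (hν : ν ∈ Mo σ d) (h : ν o ≠ 0) :
    N0 S o * S.J ν = S.J ν * N0 S o := by
  unfold N0
  rw [Finset.sum_mul, Finset.mul_sum]
  refine Finset.sum_congr rfl fun μ hμ => ?_
  obtain ⟨h2, h4⟩ := Finset.mem_filter.mp hμ
  have h3 : ν ≠ μ := fun h5 => h (h5.symm ▸ h4)
  rw [← mul_assoc, S.JE ν hν μ h2 h3, neg_mul, mul_assoc, mul_assoc, S.JJ, mul_neg]

lemma N0_m (a : MvPolynomial σ k) : N0 S o * S.m a = S.m a * N0 S o := by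
  unfold N0
  rw [Finset.sum_mul, Finset.mul_sum]
  refine Finset.sum_congr rfl fun μ _ => ?_
  rw [mul_assoc, ← S.mJ, ← mul_assoc, ← S.mE, mul_assoc]

end ring

/-- `e1` commutes with letters `μ o ≥ 1` -/
lemma e1_E (S : Fk σ k (Module.End k F) (e + 1)) (o x : σ) {ν : σ →₀ ℕ} (hν : ν ∈ Mo σ (e + 1))
    (h : ν o ≠ 0) : e1 S o x * S.E ν = S.E ν * e1 S o x := by
  unfold e1
  rw [Finset.sum_mul, Finset.mul_sum]
  refine Finset.sum_congr rfl fun μ hμ => ?_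
  obtain ⟨h2, h4⟩ := Finset.mem_filter.mp hμ
  have h3 : μ ≠ ν := fun h5 => h (h5 ▸ h4)
  rw [mul_assoc, S.JE μ h2 ν hν h3, mul_neg, ← mul_assoc, ← S.Ee_monomial hν, S.EeEe, neg_mul,
    neg_neg, mul_assoc]

/-- products of `j` letters `μ o ≥ 2` -/
def PW (S : Fk σ k (Module.End k F) (e + 1)) (o : σ) (j : ℕ) : Submodule k (Module.End k F) :=
  Submodule.span k {T : Module.End k F | ∃ L : List (σ →₀ ℕ), L.length = j ∧
    (∀ μ ∈ L, μ ∈ Mo σ (e + 1) ∧ 2 ≤ μ o) ∧ T = (L.map S.E).prod}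

/-- induction on products -/
lemma PW_comm {S : Fk σ k (Module.End k F) (e + 1)} {o : σ} {j : ℕ} {T : Module.End k F}
    (hT : T ∈ PW S o j) (X : Module.End k F)
    (h : ∀ μ ∈ Mo σ (e + 1), 2 ≤ μ o → X * S.E μ = S.E μ * X) : X * T = T * X := by
  refine Submodule.span_induction (p := fun T _ => X * T = T * X) ?_ (by simp)
    (fun T T' _ _ h1 h2 => by rw [mul_add, add_mul, h1, h2])
    (fun t T _ h1 => by rw [mul_smul_comm, smul_mul_assoc, h1]) hT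
  rintro _ ⟨L, hl, hL, rfl⟩
  clear hl
  induction L with
  | nil => simp
  | cons μ L ih =>
    obtain ⟨h1, h2⟩ := hL μ List.mem_cons_self
    rw [List.map_cons, List.prod_cons, ← mul_assoc, h μ h1 h2, mul_assoc,
      ih (fun ν hν => hL ν (List.mem_cons_of_mem _ hν)), mul_assoc]

lemma PW_CC {S : Fk σ k (Module.End k F) (e + 1)} {o : σ} {K : BiK k F e} {j l : ℕ}
    {T : Module.End k F} (hT : T ∈ PW S o j) {s i m : ℕ} {y : F} (hy : y ∈ CC S o K s i m l) :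
    T y ∈ CC S o K s i m (l + j) := by
  refine Submodule.span_induction (p := fun T _ => T y ∈ CC S o K s i m (l + j)) ?_
    (by rw [LinearMap.zero_apply]; exact zero_mem _)
    (fun T T' _ _ h1 h2 => by rw [LinearMap.add_apply]; exact add_mem h1 h2)
    (fun t T _ h1 => by rw [LinearMap.smul_apply]; exact Submodule.smul_mem _ _ h1) hT
  rintro _ ⟨L, hlen, hL, rfl⟩
  subst hlen
  clear hT
  induction L with
  | nil => simpa using hy
  | cons μ L ih =>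
    obtain ⟨h1, h2⟩ := hL μ List.mem_cons_self
    rw [List.map_cons, List.prod_cons, Module.End.mul_apply, List.length_cons, ← add_assoc]
    exact Submodule.subset_span ⟨μ, h1, h2, _,
      ih (fun ν hν => hL ν (List.mem_cons_of_mem _ hν)), rfl⟩

end Pool.Agent.H12.OP
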