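import Pool.Agent.H12.OP.T2b

set_option autoImplicit false
set_option linter.unusedSectionVars false

/-!
# Full Ottaviani-Paoletti, part (T2e): `mul_kappa`, `e0_kappa`
-/

open MvPolynomial

namespace Pool.Agent.H12.OP

open Pool.Agent.H27.OP Pool.Agent.H80.OP Pool.Agent.H20.OPF

variable {σ k F : Type} [Fintype σ] [Field k] [AddCommGroup F] [Module k F] {e : ℕ}
variable {S : Fk σ k (Module.End k F) (e + 1)} {A : Gr S} {o : σ} {K : BiK k F e}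

/-- evaluation of an operator identity -/
lemma ev {T T' : Module.End k F} (h : T = T') (ω : F) : T ω = T' ω := by rw [h]

section cmp

variable (C : Cmp S A o K)

include C

lemma cS_E0 {ν : σ →₀ ℕ} (hν : ν ∈ Mo σ (e + 1)) (h : ν o = 0) (ω : F) :
    K.dS (S.E ν ω) = S.m (monomial ν 1) ω - S.E ν (K.dS ω) := by
  rw [C.dS_eq, C.dS_eq]
  exact ev (sumJ_E_self S _ (Finset.filter_subset _ _) (fun μ => monomial μ 1)
    (Finset.mem_filter.mpr ⟨hν, h⟩)) ω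

lemma cS_E1 {ν : σ →₀ ℕ} (hν : ν ∈ Mo σ (e + 1)) (h : ν o ≠ 0) (ω : F) :
    K.dS (S.E ν ω) = - S.E ν (K.dS ω) := by
  rw [C.dS_eq, C.dS_eq]
  exact ev (sumJ_E S _ (Finset.filter_subset _ _) (fun μ => monomial μ 1) hν
    (fun h' => h (Finset.mem_filter.mp h').2)) ω

lemma cA_E0 {ν : σ →₀ ℕ} (hν : ν ∈ Mo σ (e + 1)) (h : ν o = 0) (ω : F) :
    K.dA (S.E ν ω) = - S.E ν (K.dA ω) := by
  rw [C.dA_eq, C.dA_eq]
  exact ev (sumJ_E S _ (Finset.filter_subset _ _) (fun μ => monomial (μ - Finsupp.single o 1) 1) hν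
    (fun h' => by have := (Finset.mem_filter.mp h').2; omega)) ω

lemma cA_E1 {ν : σ →₀ ℕ} (hν : ν ∈ Mo σ (e + 1)) (h : 1 ≤ ν o) (ω : F) :
    K.dA (S.E ν ω) = S.m (monomial (ν - Finsupp.single o 1) 1) ω - S.E ν (K.dA ω) := by
  rw [C.dA_eq, C.dA_eq]
  exact ev (sumJ_E_self S _ (Finset.filter_subset _ _)
    (fun μ => monomial (μ - Finsupp.single o 1) 1) (Finset.mem_filter.mpr ⟨hν, h⟩)) ω

lemma cS_J (ν : σ →₀ ℕ) (ω : F) : K.dS (S.J ν ω) = - S.J ν (K.dS ω) := by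
  rw [C.dS_eq, C.dS_eq]
  exact ev (sumJ_J S _ (fun μ => monomial μ 1) ν) ω

lemma cA_J (ν : σ →₀ ℕ) (ω : F) : K.dA (S.J ν ω) = - S.J ν (K.dA ω) := by
  rw [C.dA_eq, C.dA_eq]
  exact ev (sumJ_J S _ (fun μ => monomial (μ - Finsupp.single o 1) 1) ν) ω

lemma cS_m (a : MvPolynomial σ k) (ω : F) : K.dS (S.m a ω) = S.m a (K.dS ω) := by
  rw [C.dS_eq, C.dS_eq]
  exact ev (sumJ_m S _ (fun μ => monomial μ 1) a) ω

lemma cA_m (a : MvPolynomial σ k) (ω : F) : K.dA (S.m a ω) = S.m a (K.dA ω) := by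
  rw [C.dA_eq, C.dA_eq]
  exact ev (sumJ_m S _ (fun μ => monomial (μ - Finsupp.single o 1) 1) a) ω

lemma c_rho_J (ν : σ →₀ ℕ) (ω : F) : K.rho (S.J ν ω) = S.J ν (K.rho ω) := by
  rw [C.rho_eq, C.rho_eq, A.rho_J]

lemma c_rho_mon {ν : σ →₀ ℕ} (h : ν o = 0) (ω : F) :
    K.rho (S.m (monomial ν 1) ω) = S.m (monomial ν 1) (K.rho ω) := by
  rw [C.rho_eq, C.rho_eq, A.rho_mon o ν ω h]

lemma c_rho_X (ω : F) : K.rho (S.m (X o) ω) = 0 := by
  rw [C.rho_eq, A.rho_X]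

lemma c_rho_Ee (u : MvPolynomial σ k) (ω : F) : K.rho (S.Ee u ω) = S.Ee u (K.rho ω) := by
  rw [Fk.Ee_apply, LinearMap.sum_apply, LinearMap.sum_apply, map_sum]
  refine Finset.sum_congr rfl fun μ _ => ?_
  rw [LinearMap.smul_apply, LinearMap.smul_apply, map_smul, C.rho_E]

lemma G_E0 {ν : σ →₀ ℕ} (hν : ν ∈ Mo σ (e + 1)) (h : ν o = 0) {a b m : ℕ} {ω : F}
    (hω : ω ∈ K.G a b m) : S.E ν ω ∈ K.G (a + 1) b m := by
  obtain ⟨h1, h2⟩ := C.G_iff.mp hω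
  refine C.G_iff.mpr ⟨?_, ?_⟩
  · rw [show a + 1 + b = a + b + 1 by ring]
    exact A.GE h1
  · have h3 := ev (N0_E0 S o hν h) ω
    simp only [Module.End.mul_apply, LinearMap.add_apply, h2, map_smul] at h3
    rw [h3, Nat.cast_succ, add_smul, one_smul]

lemma G_E1 {ν : σ →₀ ℕ} (hν : ν ∈ Mo σ (e + 1)) (h : ν o ≠ 0) {a b m : ℕ} {ω : F}
    (hω : ω ∈ K.G a b m) : S.E ν ω ∈ K.G a (b + 1) m := by
  obtain ⟨h1, h2⟩ := C.G_iff.mp hω
  refine C.G_iff.mpr ⟨?_, ?_⟩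
  · rw [← add_assoc]
    exact A.GE h1
  · have h3 := ev (N0_E1 S o hν h) ω
    simp only [Module.End.mul_apply, h2, map_smul] at h3
    exact h3

lemma G_J1 {ν : σ →₀ ℕ} (hν : ν ∈ Mo σ (e + 1)) (h : ν o ≠ 0) {a b m : ℕ} {ω : F}
    (hω : ω ∈ K.G a (b + 1) m) : S.J ν ω ∈ K.G a b m := by
  obtain ⟨h1, h2⟩ := C.G_iff.mp hω
  refine C.G_iff.mpr ⟨?_, ?_⟩
  · rw [← add_assoc] at h1
    exact A.GJ h1
  · have h3 := ev (N0_J1 S o hν h) ω
    simp only [Module.End.mul_apply, h2, map_smul] at h3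
    exact h3

lemma G_m {a : MvPolynomial σ k} {j : ℕ} (ha : a.IsHomogeneous j) {s b m : ℕ} {ω : F}
    (hω : ω ∈ K.G s b m) : S.m a ω ∈ K.G s b (m + j) := by
  obtain ⟨h1, h2⟩ := C.G_iff.mp hω
  refine C.G_iff.mpr ⟨A.Gm ha h1, ?_⟩
  have h3 := ev (N0_m S o a) ω
  simp only [Module.End.mul_apply, h2, map_smul] at h3
  exact h3

/-- letters `μ o = 1` can be removed from `GZ` -/
lemma GZ_J1 {μ : σ →₀ ℕ} (hμ : μ ∈ Mo σ (e + 1)) (h : μ o ≠ 0) {s i m : ℕ} {z : F}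
    (hz : z ∈ GZ S o K s (i + 1) m) : S.J μ z ∈ GZ S o K s i m := by
  obtain ⟨⟨h1, h2, h3, h4⟩, h5⟩ := hz
  refine ⟨⟨G_J1 C hμ h h1, by rw [c_rho_J C, h2], by rw [cS_J C, h3, map_zero, neg_zero],
    by rw [cA_J C, map_neg, c_rho_J C, h4, map_zero, neg_zero]⟩, fun ν hν h6 => ?_⟩
  have h7 := ev (S.JJ ν μ) z
  simp only [Module.End.mul_apply, LinearMap.neg_apply] at h7
  rw [h7, h5 ν hν h6, map_zero, neg_zero]

lemma kap_mem {j : ℕ} (Q : KV S o j) (β : Q.V) : Q.κ β ∈ PW S o j := Q.span β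

lemma kap_m {j : ℕ} (Q : KV S o j) (β : Q.V) (a : MvPolynomial σ k) (ω : F) :
    Q.κ β (S.m a ω) = S.m a (Q.κ β ω) :=
  (ev (PW_comm (Q.span β) (S.m a) (fun μ _ _ => S.mE a μ)) ω).symm

lemma kap_rho {j : ℕ} (Q : KV S o j) (β : Q.V) (ω : F) :
    K.rho (Q.κ β ω) = Q.κ β (K.rho ω) :=
  ev (PW_comm (Q.span β) K.rho (fun μ _ _ => LinearMap.ext fun ω => C.rho_E μ ω)) ω

lemma kap_e1 {j : ℕ} (Q : KV S o j) (β : Q.V) (x : σ) (ω : F) :
    e1 S o x (Q.κ β ω) = Q.κ β (e1 S o x ω) :=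
  ev (PW_comm (Q.span β) (e1 S o x) (fun μ hμ h => e1_E S o x hμ (by omega))) ω

/-- `κ β (x^ν z)`, `ν o = 0`, is `dS` of a leading term -/
theorem mul_kappa' (hCl : ∀ {s i m j : ℕ}, CC S o K s i m j ≤ Cl K s (i + j) m)
    {j : ℕ} (Q : KV S o j) (β : Q.V) {s i m : ℕ}
    {z : F} (h : z ∈ GZ S o K s i m) {ν : σ →₀ ℕ} (hν : ν ∈ Mo σ (e + 1)) (h0 : ν o = 0) :
    S.m (monomial ν 1) z ∈ GZ S o K s i (m + (e + 1)) ∧
    ∃ y ∈ K.G (s + 1) (i + j) m, K.rho y = y ∧ K.rho (K.dA y) = 0 ∧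
      K.dS y = Q.κ β (S.m (monomial ν 1) z) := by
  have hm : (monomial ν (1 : k)).IsHomogeneous (e + 1) := isHomogeneous_monomial _ (mem_Mo.mp hν)
  have h1 : Q.κ β z ∈ Cl K s (i + j) m := by
    have := PW_CC (l := 0) (kap_mem C Q β) (s := s) (i := i) (m := m) (y := z) (K := K) h
    rw [zero_add] at this
    exact hCl this
  obtain ⟨g1, g2, g3, g4⟩ := h1
  obtain ⟨⟨z1, z2, z3, z4⟩, z5⟩ := h
  refine ⟨⟨⟨G_m C hm z1, by rw [c_rho_mon C h0, z2], by rw [cS_m C, z3, map_zero],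
    by rw [cA_m C, c_rho_mon C h0, z4, map_zero]⟩, fun μ hμ h6 => ?_⟩,
    S.E ν (Q.κ β z), G_E0 C hν h0 g1, by rw [C.rho_E, g2], ?_, ?_⟩
  · have h7 := ev (S.mJ (monomial ν 1) μ) z
    simp only [Module.End.mul_apply] at h7
    rw [← h7, z5 μ hμ h6, map_zero]
  · rw [cA_E0 C hν h0, map_neg, C.rho_E, g4, map_zero, neg_zero]
  · rw [cS_E0 C hν h0, g3, map_zero, sub_zero, kap_m C]

/-- leading term of `X o ∂_x z` -/
lemma rho_e0_GZ {x : σ} {s i m : ℕ} {z : F} (h : z ∈ GZ S o K s i m) :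
    K.rho (e0 S o x z) = ∑ μ ∈ (Mo σ (e + 1)).filter (fun μ => μ o = 1),
      S.Ee (X o * pderiv x (monomial μ 1)) (S.J μ z) := by
  classical
  obtain ⟨⟨z1, z2, z3, z4⟩, z5⟩ := h
  have h1 : (Mo σ (e + 1)) = (Mo σ (e + 1)).filter (fun μ => μ o = 0)
      ∪ ((Mo σ (e + 1)).filter (fun μ => μ o = 1)
        ∪ (Mo σ (e + 1)).filter (fun μ => 2 ≤ μ o)) := by
    rw [← Finset.filter_or, ← Finset.filter_or, Finset.filter_true_of_mem]
    intro μ _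
    omega
  have h2 : Disjoint ((Mo σ (e + 1)).filter (fun μ => μ o = 0))
      ((Mo σ (e + 1)).filter (fun μ => μ o = 1) ∪ (Mo σ (e + 1)).filter (fun μ => 2 ≤ μ o)) := by
    rw [← Finset.filter_or, Finset.disjoint_filter]
    intro μ _ h
    omega
  have h3 : Disjoint ((Mo σ (e + 1)).filter (fun μ => μ o = 1))
      ((Mo σ (e + 1)).filter (fun μ => 2 ≤ μ o)) := by
    rw [Finset.disjoint_filter]
    intro μ _ h
    omega
  have hD : ∀ f : (σ →₀ ℕ) → F, ∑ μ ∈ Mo σ (e + 1), f μ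
      = ∑ μ ∈ (Mo σ (e + 1)).filter (fun μ => μ o = 0), f μ
        + (∑ μ ∈ (Mo σ (e + 1)).filter (fun μ => μ o = 1), f μ
          + ∑ μ ∈ (Mo σ (e + 1)).filter (fun μ => 2 ≤ μ o), f μ) := by
    intro f
    rw [← Finset.sum_union h3, ← Finset.sum_union h2, ← h1]
  have h5 : ∑ μ ∈ (Mo σ (e + 1)).filter (fun μ => 2 ≤ μ o),
      S.Ee (X o * pderiv x (monomial μ 1)) (S.J μ z) = 0 := by
    refine Finset.sum_eq_zero fun μ hμ => ?_
    obtain ⟨h6, h7⟩ := Finset.mem_filter.mp hμ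
    rw [z5 μ h6 h7, map_zero]
  have h4 : e0 S o x z = S.m (X o) (S.T x z)
      + ∑ μ ∈ (Mo σ (e + 1)).filter (fun μ => μ o = 1),
        S.Ee (X o * pderiv x (monomial μ 1)) (S.J μ z) := by
    unfold e0 e1
    rw [LinearMap.sub_apply, D_apply, LinearMap.sum_apply, hD, h5, add_zero]
    simp only [Module.End.mul_apply]
    abel
  rw [h4, map_add, c_rho_X C, zero_add, map_sum]
  refine Finset.sum_congr rfl fun μ _ => ?_
  rw [c_rho_Ee C, c_rho_J C, z2]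

/-- one letter `μ o ≥ 2` from a polynomial -/
lemma Ee_CC {x : σ} (hx : x ≠ o) {μ : σ →₀ ℕ} (hμ : μ ∈ Mo σ (e + 1)) (h1 : 1 ≤ μ o)
    {s i m j : ℕ} {y : F} (hy : y ∈ CC S o K s i m j) :
    S.Ee (X o * pderiv x (monomial μ 1)) y ∈ CC S o K s i m (j + 1) := by
  classical
  rw [pderiv_monomial, one_mul, X, monomial_mul, one_mul]
  have h2 : monomial (Finsupp.single o 1 + (μ - Finsupp.single x 1)) ((μ x : ℕ) : k)
      = ((μ x : ℕ) : k) • monomial (Finsupp.single o 1 + (μ - Finsupp.single x 1)) (1 : k) := by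
    rw [smul_monomial, smul_eq_mul, mul_one]
  rw [h2, map_smul, LinearMap.smul_apply]
  rcases Nat.eq_zero_or_pos (μ x) with h3 | h3
  · rw [h3, Nat.cast_zero, zero_smul]
    exact zero_mem _
  · have h4 : Finsupp.single o 1 + (μ - Finsupp.single x 1) ∈ Mo σ (e + 1) := by
      rw [mem_Mo] at hμ ⊢
      have h5 : Finsupp.single x 1 + (μ - Finsupp.single x 1) = μ := by
        ext y
        by_cases hy : y = x
        · subst hy
          simp only [Finsupp.coe_add, Finsupp.coe_tsub, Pi.add_apply, Pi.sub_apply,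
            Finsupp.single_eq_same]
          omega
        · simp [Finsupp.single_eq_of_ne hy]
      have h6 := congrArg Finsupp.degree h5
      rw [map_add, Finsupp.degree_single] at h6 ⊢
      omega
    refine Submodule.smul_mem _ _ ?_
    rw [S.Ee_monomial h4]
    refine Submodule.subset_span ⟨_, h4, ?_, y, hy, rfl⟩
    simp only [Finsupp.coe_add, Finsupp.coe_tsub, Pi.add_apply, Pi.sub_apply,
      Finsupp.single_eq_same, Finsupp.single_eq_of_ne (Ne.symm hx)]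
    omega

/-- leading term of `X o ∂_x (κ β z)` -/
theorem e0_kappa' (hCl : ∀ {s i m j : ℕ}, CC S o K s i m j ≤ Cl K s (i + j) m)
    {x : σ} (hx : x ≠ o) {j : ℕ} (Q : KV S o j)
    (β : Q.V) {s i m : ℕ} {z : F} (h : z ∈ GZ S o K s i m) :
    ∃ w : F, K.rho (e0 S o x (Q.κ β z)) = Q.κ (Q.DV o x β) z + w ∧ (i = 0 → w = 0) ∧
      ∀ i', i = i' + 1 → w ∈ CC S o K s i' m (j + 1) := by
  have h1 : e0 S o x (Q.κ β z) = Q.κ (Q.DV o x β) z + Q.κ β (e0 S o x z) := by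
    have h2 := ev (Q.int o x hx β) z
    simp only [Module.End.mul_apply, LinearMap.add_apply] at h2
    unfold e0
    rw [LinearMap.sub_apply, LinearMap.sub_apply, h2, kap_e1 C, map_sub]
    abel
  have h3 : Q.κ (Q.DV o x β) z ∈ Cl K s (i + j) m := by
    have := PW_CC (l := 0) (kap_mem C Q (Q.DV o x β)) (s := s) (i := i) (m := m) (y := z) (K := K) h
    rw [zero_add] at this
    exact hCl this
  refine ⟨Q.κ β (∑ μ ∈ (Mo σ (e + 1)).filter (fun μ => μ o = 1),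
      S.Ee (X o * pderiv x (monomial μ 1)) (S.J μ z)), ?_, ?_, ?_⟩
  · rw [h1, map_add, h3.2.1, kap_rho C, rho_e0_GZ C h]
  · rintro rfl
    rw [Finset.sum_eq_zero, map_zero]
    intro μ hμ
    obtain ⟨h4, h5⟩ := Finset.mem_filter.mp hμ
    rw [C.J_A h.1.1 μ h4 (by omega), map_zero]
  · rintro i' rfl
    have h6 : (∑ μ ∈ (Mo σ (e + 1)).filter (fun μ => μ o = 1),
        S.Ee (X o * pderiv x (monomial μ 1)) (S.J μ z)) ∈ CC S o K s i' m 1 := by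
      refine Submodule.sum_mem _ fun μ hμ => ?_
      obtain ⟨h4, h5⟩ := Finset.mem_filter.mp hμ
      exact Ee_CC C hx h4 (by omega) (j := 0) (GZ_J1 C h4 (by omega) h)
    have := PW_CC (kap_mem C Q β) h6
    rwa [add_comm 1 j] at this

end cmp

end Pool.Agent.H12.OP
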