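import Pool.Agent.H12.OP.T1
import Pool.Agent.H12.OP.T2
import Pool.Agent.H12.OP.Sl2Hom

set_option autoImplicit false
set_option linter.unusedSectionVars false

/-!
# Full Ottaviani-Paoletti, part (T3): leading terms of boundaries

`KK` : the closed leading terms `y` such that every cycle with leading term `y` is a boundary.
-/

open MvPolynomial

namespace Pool.Agent.H12.OP

open Pool.Agent.H27.OP Pool.Agent.H80.OP Pool.Agent.H20.OPF Pool.Agent.H40.OP Pool.Agent.H40.OPR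

variable {σ k F : Type} [Fintype σ] [Field k] [AddCommGroup F] [Module k F] {e : ℕ}

/-- `Θ` is a cycle with leading term `y` -/
def LT (K : BiK k F e) (s b : ℕ) (y Θ : F) : Prop :=
  ∃ x ∈ K.G s b (2 * e + 2), ∃ Ω ∈ (toBi K).FL s (s + b) (2 * e + 2),
    Θ = x + Ω ∧ K.D Θ = 0 ∧ K.rho x = y

section lt

variable {K : BiK k F e} {s b : ℕ}

lemma LT.cycle {y Θ : F} (h : LT K s b y Θ) : K.D Θ = 0 := by
  obtain ⟨_, _, _, _, _, h, _⟩ := h
  exact h

lemma LT.add {y y' Θ Θ' : F} (h : LT K s b y Θ) (h' : LT K s b y' Θ') :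
    LT K s b (y + y') (Θ + Θ') := by
  obtain ⟨x, hx, Ω, hΩ, rfl, h1, rfl⟩ := h
  obtain ⟨x', hx', Ω', hΩ', rfl, h1', rfl⟩ := h'
  exact ⟨x + x', add_mem hx hx', Ω + Ω', add_mem hΩ hΩ', by abel, by rw [map_add, h1, h1', add_zero],
    map_add _ _ _⟩

lemma LT.smul {y Θ : F} (t : k) (h : LT K s b y Θ) : LT K s b (t • y) (t • Θ) := by
  obtain ⟨x, hx, Ω, hΩ, rfl, h1, rfl⟩ := h
  exact ⟨t • x, Submodule.smul_mem _ _ hx, t • Ω, Submodule.smul_mem _ _ hΩ, smul_add _ _ _,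
    by rw [map_smul, h1, smul_zero], map_smul _ _ _⟩

lemma LT.sub {y y' Θ Θ' : F} (h : LT K s b y Θ) (h' : LT K s b y' Θ') :
    LT K s b (y - y') (Θ - Θ') := by
  have := h.add (h'.smul (-1))
  simpa only [neg_smul, one_smul, ← sub_eq_add_neg] using this

lemma LT.zero : LT K s b 0 (0 : F) :=
  ⟨0, zero_mem _, 0, zero_mem _, by abel, map_zero _, map_zero _⟩

lemma LT.closed {y Θ : F} (h : LT K s b y Θ) : y ∈ Cl K s b (2 * e + 2) := by
  obtain ⟨x, hx, Ω, hΩ, rfl, h1, rfl⟩ := h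
  obtain ⟨_, _, h2, h3⟩ := top_cycle hx hΩ h1
  exact ⟨K.rho_mem hx, K.rho_rho x, h2, h3⟩

end lt

/-- an operator compatible with leading terms: `T` commutes with `D`, preserves the levels below
`s`, and `T x = T0 x + (lower levels)` on level `s`. -/
structure Ad (K : BiK k F e) (s b : ℕ) (T T0 : F →ₗ[k] F) : Prop where
  comm : ∀ ω, K.D (T ω) = T (K.D ω)
  fl : ∀ ω ∈ (toBi K).FL s (s + b) (2 * e + 2), T ω ∈ (toBi K).FL s (s + b) (2 * e + 2)
  g0 : ∀ ω ∈ K.G s b (2 * e + 2), T0 ω ∈ K.G s b (2 * e + 2)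
  g1 : ∀ ω ∈ K.G s b (2 * e + 2), T ω - T0 ω ∈ (toBi K).FL s (s + b) (2 * e + 2)
  rh : ∀ ω, K.rho (T0 ω) = K.rho (T0 (K.rho ω))

lemma LT.op {K : BiK k F e} {s b : ℕ} {T T0 : F →ₗ[k] F} (hT : Ad K s b T T0) {y Θ : F}
    (h : LT K s b y Θ) : LT K s b (K.rho (T0 y)) (T Θ) := by
  obtain ⟨x, hx, Ω, hΩ, rfl, h1, rfl⟩ := h
  refine ⟨T0 x, hT.g0 x hx, (T x - T0 x) + T Ω, add_mem (hT.g1 x hx) (hT.fl Ω hΩ), ?_, ?_,
    hT.rh x⟩
  · rw [map_add]; abel
  · rw [hT.comm, h1, map_zero]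

/-- the closed leading terms all of whose lifts are boundaries -/
structure Inp3 (S : Fk σ k (Module.End k F) (e + 1)) (A : Gr S) (o : σ) (K : BiK k F e)
    (p s b : ℕ) : Prop where
  C : Cmp S A o K
  he : 1 ≤ e
  hp : p ≤ 3 * e
  H : InpK K p
  hs : 2 ≤ s
  hsb : s + b = p
  ih : ∀ ω ∈ (toBi K).FL s (s + b) (2 * e + 2), K.D ω = 0 → ω ∈ LinearMap.range K.D

section main

variable [CharZero k] {S : Fk σ k (Module.End k F) (e + 1)} {A : Gr S} {o : σ} {K : BiK k F e}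
variable {p s b : ℕ}

lemma Inp3.exists_lift (I : Inp3 S A o K p s b) {y : F} (hy : y ∈ Cl K s b (2 * e + 2)) :
    ∃ Θ, LT K s b y Θ := by
  obtain ⟨h1, h2, h3, h4⟩ := hy
  obtain ⟨x, hx, Ω, hΩ, g1, _, g3⟩ := I.H.lift I.hp (le_of_eq I.hsb) h1 (by rw [h3, map_zero]) h4
  exact ⟨x + Ω, x, hx, Ω, hΩ, rfl, g1, by rw [g3, h2]⟩

lemma Inp3.zero (I : Inp3 S A o K p s b) {Θ : F} (h : LT K s b 0 Θ) :
    Θ ∈ LinearMap.range K.D := by
  obtain ⟨x, hx, Ω, hΩ, rfl, h1, h2⟩ := h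
  have hs := I.hs
  have hsb := I.hsb
  have hp := I.hp
  obtain ⟨s', rfl⟩ : ∃ s', s = s' + 1 := ⟨s - 1, by omega⟩
  obtain ⟨h3, _⟩ := top_cycle hx hΩ h1
  obtain ⟨w, hw, y, hy, rfl⟩ := I.H.reduce (s := s') (b := b) (by omega) hx h3 h2
  have h4 : y + Ω ∈ LinearMap.range K.D := by
    refine I.ih _ (add_mem (FS_le_FL K hy) hΩ) ?_
    have h5 : K.D (K.D w + y + Ω) = K.D (y + Ω) := by
      rw [add_assoc, map_add, K.DD, zero_add]
    rw [← h5, h1]
  rw [add_assoc]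
  exact add_mem ⟨w, rfl⟩ h4

variable (S A o K) in
/-- the closed leading terms all of whose lifts are boundaries -/
def KK (I : Inp3 S A o K p s b) : Submodule k F where
  carrier := {y | y ∈ Cl K s b (2 * e + 2) ∧ ∀ Θ, LT K s b y Θ → Θ ∈ LinearMap.range K.D}
  add_mem' := by
    rintro y y' ⟨h1, h2⟩ ⟨g1, g2⟩
    refine ⟨add_mem h1 g1, fun Θ h => ?_⟩
    obtain ⟨Θ1, hΘ1⟩ := I.exists_lift h1
    have h3 := g2 (Θ - Θ1) (by have := h.sub hΘ1; rwa [add_sub_cancel_left] at this)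
    have h4 := add_mem h3 (h2 _ hΘ1)
    rwa [sub_add_cancel] at h4
  zero_mem' := ⟨zero_mem _, fun Θ h => I.zero h⟩
  smul_mem' := by
    rintro t y ⟨h1, h2⟩
    refine ⟨Submodule.smul_mem _ _ h1, fun Θ h => ?_⟩
    obtain ⟨Θ1, hΘ1⟩ := I.exists_lift h1
    have h3 := I.zero (Θ := Θ - t • Θ1) (by have := h.sub (hΘ1.smul t); rwa [sub_self] at this)
    have h4 := add_mem h3 (Submodule.smul_mem _ t (h2 _ hΘ1))
    rwa [sub_add_cancel] at h4

lemma mem_KK (I : Inp3 S A o K p s b) {y : F} : y ∈ KK S A o K I ↔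
    y ∈ Cl K s b (2 * e + 2) ∧ ∀ Θ, LT K s b y Θ → Θ ∈ LinearMap.range K.D := Iff.rfl

/-- one boundary lift is enough -/
lemma Inp3.of_lift (I : Inp3 S A o K p s b) {y Θ : F} (h : LT K s b y Θ)
    (hr : Θ ∈ LinearMap.range K.D) : y ∈ KK S A o K I := by
  refine ⟨h.closed, fun Θ' h' => ?_⟩
  have h1 := I.zero (Θ := Θ' - Θ) (by have := h'.sub h; rwa [sub_self] at this)
  have h2 := add_mem h1 hr
  rwa [sub_add_cancel] at h2

lemma Inp3.range_op (K : BiK k F e) {T : F →ₗ[k] F} (hT : ∀ ω, K.D (T ω) = T (K.D ω)) {Θ : F}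
    (h : Θ ∈ LinearMap.range K.D) : T Θ ∈ LinearMap.range K.D := by
  obtain ⟨w, rfl⟩ := h
  exact ⟨T w, hT w⟩

/-! ### admissible operators -/

lemma Inp3.ad_xy (I : Inp3 S A o K p s b) {x y : σ} (hx : x ≠ o) (hy : y ≠ o) :
    Ad K s b (S.D (X x) y) (S.D (X x) y) where
  comm := D_comm I.C x y
  fl ω hω := by
    refine (toBi K).FL_induction (P := fun ω => S.D (X x) y ω ∈ (toBi K).FL s (s + b) (2 * e + 2))
      (by rw [map_zero]; exact zero_mem _) (fun u v hu hv => by rw [map_add]; exact add_mem hu hv)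
      (fun a b' ha hab u hu => (toBi K).G_le_FL ha hab (Dxy_G I.C hx hy hu)) hω
  g0 ω hω := Dxy_G I.C hx hy hω
  g1 ω _ := by rw [sub_self]; exact zero_mem _
  rh ω := by rw [rho_Dxy I.C hx hy, rho_Dxy I.C hx hy, K.rho_rho]

lemma Inp3.ad_oo (I : Inp3 S A o K p s b) : Ad K s b (S.D (X o) o) (S.D (X o) o) where
  comm := D_comm I.C o o
  fl ω hω := by
    refine (toBi K).FL_induction (P := fun ω => S.D (X o) o ω ∈ (toBi K).FL s (s + b) (2 * e + 2))
      (by rw [map_zero]; exact zero_mem _) (fun u v hu hv => by rw [map_add]; exact add_mem hu hv)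
      (fun a b' ha hab u hu => (toBi K).G_le_FL ha hab (Doo_G I.C hu)) hω
  g0 ω hω := Doo_G I.C hω
  g1 ω _ := by rw [sub_self]; exact zero_mem _
  rh ω := rho_Doo I.C ω

lemma ox_FL (C : Cmp S A o K) {x : σ} (hx : x ≠ o) {a b' p' t m : ℕ} {u : F} (ha : a < t)
    (hab : a + b' = p') (hu : u ∈ K.G a b' m) : S.D (X o) x u ∈ (toBi K).FL t p' m := by
  have h1 : S.D (X o) x u = e0 S o x u + e1 S o x u := by
    unfold e0
    rw [LinearMap.sub_apply, sub_add_cancel]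
  rw [h1]
  refine add_mem ((toBi K).G_le_FL ha hab (e0_G C hx hu)) ?_
  rcases a with _ | a
  · rw [e1_G0 C hx hu]; exact zero_mem _
  · exact (toBi K).G_le_FL (by omega) (by omega) (e1_G C hx hu)

lemma Inp3.ad_ox (I : Inp3 S A o K p s b) {x : σ} (hx : x ≠ o) :
    Ad K s b (S.D (X o) x) (e0 S o x) where
  comm := D_comm I.C o x
  fl ω hω := by
    refine (toBi K).FL_induction (P := fun ω => S.D (X o) x ω ∈ (toBi K).FL s (s + b) (2 * e + 2))
      (by rw [map_zero]; exact zero_mem _) (fun u v hu hv => by rw [map_add]; exact add_mem hu hv)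
      (fun a b' ha hab u hu => ox_FL I.C hx ha hab hu) hω
  g0 ω hω := e0_G I.C hx hω
  g1 ω hω := by
    have h1 : S.D (X o) x ω - e0 S o x ω = e1 S o x ω := by
      unfold e0
      rw [LinearMap.sub_apply, sub_sub_cancel]
    rw [h1]
    have hs := I.hs
    obtain ⟨s', rfl⟩ : ∃ s', s = s' + 1 := ⟨s - 1, by omega⟩
    exact (toBi K).G_le_FL (by omega) (by omega) (e1_G I.C hx hω)
  rh ω := rho_e0 I.C hx ω

end main

end Pool.Agent.H12.OP
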