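import Pool.Agent.H12.OP.T3

set_option autoImplicit false
set_option linter.unusedSectionVars false

/-!
# Full Ottaviani-Paoletti, part (T4): the claim

`ShZ` : the shape theorem as a hypothesis.
`claim` : every cycle of bidegree `(p, 2 d)`, `p ≤ 3 d - 3`, is a boundary.
-/

open MvPolynomial

namespace Pool.Agent.H12.OP

open Pool.Agent.H27.OP Pool.Agent.H80.OP Pool.Agent.H20.OPF Pool.Agent.H40.OP Pool.Agent.H40.OPR

variable {σ k F : Type} [Fintype σ] [Field k] [AddCommGroup F] [Module k F] {e : ℕ}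

/-- the shape theorem (hypothesis) -/
def ShZ (S : Fk σ k (Module.End k F) (e + 1)) (o : σ) (K : BiK k F e) : Prop :=
  ∀ s i : ℕ, 2 ≤ s → s + i ≤ 3 * e → ∀ N : Submodule k F,
    (∀ z ∈ GZ S o K s i (2 * e + 2), ∀ x : σ, x ≠ o → ∀ w : ℕ, 6 * e < w + (2 * s + i) →
      S.D (X x) x z = (w : k) • z → z ∈ N) →
    (∀ ν ∈ Mo σ (e + 1), ν o = 0 → ∀ z ∈ GZ S o K s i (e + 1), S.m (monomial ν 1) z ∈ N) →
    (∀ z ∈ GZ S o K s i (2 * e + 2), z ∈ N → ∀ x y : σ, x ≠ o → y ≠ o → S.D (X x) y z ∈ N) →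
    GZ S o K s i (2 * e + 2) ≤ N

section main

variable [CharZero k] {S : Fk σ k (Module.End k F) (e + 1)} {A : Gr S} {o : σ} {K : BiK k F e}
variable {p s b : ℕ}

/-- admissible operators which commute with `rho` on rho-fixed elements preserve `KK` -/
lemma Inp3.KK_op (I : Inp3 S A o K p s b) {T T0 : F →ₗ[k] F} (hT : Ad K s b T T0) {y : F}
    (hy : y ∈ KK S A o K I) : K.rho (T0 y) ∈ KK S A o K I := by
  obtain ⟨Θ, hΘ⟩ := I.exists_lift hy.1
  exact I.of_lift (hΘ.op hT) (Inp3.range_op K hT.comm (hy.2 Θ hΘ))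

/-- the elements `z` such that all `κ β z` are in `KK` -/
def NN (I : Inp3 S A o K p s b) {j : ℕ} (Q : KV S o j) (i : ℕ) : Submodule k F where
  carrier := {z | z ∈ GZ S o K s i (2 * e + 2) ∧ ∀ β, Q.κ β z ∈ KK S A o K I}
  add_mem' := by
    rintro x y ⟨h1, h2⟩ ⟨g1, g2⟩
    exact ⟨add_mem h1 g1, fun β => by rw [map_add]; exact add_mem (h2 β) (g2 β)⟩
  zero_mem' := ⟨zero_mem _, fun β => by rw [map_zero]; exact zero_mem _⟩
  smul_mem' := by
    rintro t x ⟨h1, h2⟩
    exact ⟨Submodule.smul_mem _ _ h1, fun β => by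
      rw [map_smul]; exact Submodule.smul_mem _ _ (h2 β)⟩

lemma Inp3.kappa_Cl (I : Inp3 S A o K p s b) {j : ℕ} (Q : KV S o j) {i : ℕ} (hij : i + j = b)
    (β : Q.V) {m : ℕ} {z : F} (hz : z ∈ GZ S o K s i m) : Q.κ β z ∈ Cl K s b m := by
  have := CC_le_Cl I.C s i m j (kappa_CC I.C Q β hz)
  rwa [hij] at this

/-- closure (op) -/
lemma Inp3.NN_op (I : Inp3 S A o K p s b) {j : ℕ} (Q : KV S o j) {i : ℕ} (hij : i + j = b)
    {z : F} (hz : z ∈ NN I Q i) {x y : σ} (hx : x ≠ o) (hy : y ≠ o) :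
    S.D (X x) y z ∈ NN I Q i := by
  refine ⟨Dxy_GZ I.C hx hy hz.1, fun β => ?_⟩
  have h1 := congrArg (fun T : Module.End k F => T z) (Q.int x y hy β)
  simp only [Module.End.mul_apply, LinearMap.add_apply] at h1
  have h2 := I.KK_op (I.ad_xy hx hy) (hz.2 β)
  rw [rho_Dxy I.C hx hy, (I.kappa_Cl Q hij β hz.1).2.1] at h2
  have h3 := sub_mem h2 (hz.2 (Q.DV x y β))
  rwa [h1, add_sub_cancel_right] at h3

/-- closure (ml) -/
lemma Inp3.NN_ml (I : Inp3 S A o K p s b) {j : ℕ} (Q : KV S o j) {i : ℕ} (hij : i + j = b)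
    {z : F} (hz : z ∈ GZ S o K s i (e + 1)) {ν : σ →₀ ℕ} (hν : ν ∈ Mo σ (e + 1)) (h0 : ν o = 0) :
    S.m (monomial ν 1) z ∈ NN I Q i := by
  have hs := I.hs
  have hsb := I.hsb
  have hp := I.hp
  refine ⟨?_, fun β => ?_⟩
  · have := (mul_kappa I.C Q 0 hz hν h0).1
    rwa [show e + 1 + (e + 1) = 2 * e + 2 by ring] at this
  · obtain ⟨_, y, hy, hyr, hyA, hyS⟩ := mul_kappa I.C Q β hz hν h0
    rw [hij] at hy
    obtain ⟨y', hy', h1, h2, h3, _⟩ := I.H.topbd (s := s) (b := b) (by omega) hy hyA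
    have h4 : K.dS y' ∈ K.G s b (2 * e + 2) := by
      have := K.dS_mem hy'
      rwa [show e + 1 + (e + 1) = 2 * e + 2 by ring] at this
    refine I.of_lift (Θ := K.dS y') ⟨K.dS y', h4, 0, zero_mem _, (add_zero _).symm, ?_, ?_⟩
      ⟨y', h2⟩
    · rw [← h2, K.DD]
    · rw [h3, hyS]
      refine (I.kappa_Cl (m := 2 * e + 2) Q hij β ?_).2.1
      have := (mul_kappa I.C Q β hz hν h0).1
      rwa [show e + 1 + (e + 1) = 2 * e + 2 by ring] at this

/-- a linear choice of lifts -/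
lemma Inp3.linear_lift (I : Inp3 S A o K p s b) {j : ℕ} (Q : KV S o j) {i : ℕ} (hij : i + j = b)
    {z : F} (hz : z ∈ GZ S o K s i (2 * e + 2)) :
    ∃ Λ : Q.V →ₗ[k] F, ∀ β, LT K s b (Q.κ β z) (Λ β) := by
  obtain ⟨B, _⟩ : ∃ B : Module.Basis (Module.Basis.ofVectorSpaceIndex k Q.V) k Q.V, True :=
    ⟨Module.Basis.ofVectorSpace k Q.V, trivial⟩
  choose f hf using fun l => I.exists_lift (I.kappa_Cl Q hij (B l) hz)
  refine ⟨B.constr k f, fun β => ?_⟩
  have h1 : ∀ l, LT K s b (Q.κ (B l) z) (B.constr k f (B l)) := by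
    intro l
    rw [Module.Basis.constr_basis]
    exact hf l
  obtain ⟨R, hR⟩ : ∃ R : Submodule k Q.V, ∀ β, β ∈ R ↔ LT K s b (Q.κ β z) (B.constr k f β) := by
    refine ⟨{ carrier := {β | LT K s b (Q.κ β z) (B.constr k f β)}
              add_mem' := fun {a a'} h h' => ?_
              zero_mem' := ?_
              smul_mem' := fun t a h => ?_ }, fun β => Iff.rfl⟩
    · have := LT.add h h'
      rwa [← LinearMap.add_apply, ← map_add, ← map_add] at this
    · show LT K s b (Q.κ 0 z) (B.constr k f 0)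
      rw [map_zero, map_zero, LinearMap.zero_apply]
      exact LT.zero
    · have := LT.smul t h
      rwa [← LinearMap.smul_apply, ← map_smul, ← map_smul] at this
  rw [← hR]
  have h2 : (⊤ : Submodule k Q.V) ≤ R := by
    rw [← B.span_eq, Submodule.span_le]
    rintro _ ⟨l, rfl⟩
    exact (hR _).mpr (h1 l)
  exact h2 trivial

/-! ### the weight condition -/

/-- induced operator on `F / range D` -/
noncomputable def qo (K : BiK k F e) (T : Module.End k F) (hT : ∀ ω, K.D (T ω) = T (K.D ω)) :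
    Module.End k (F ⧸ LinearMap.range K.D) :=
  (LinearMap.range K.D).mapQ (LinearMap.range K.D) T
    (fun _ h => Inp3.range_op K hT h)

lemma qo_mk (K : BiK k F e) (T : Module.End k F) (hT : ∀ ω, K.D (T ω) = T (K.D ω)) (ω : F) :
    qo K T hT ((LinearMap.range K.D).mkQ ω) = (LinearMap.range K.D).mkQ (T ω) := rfl

lemma qo_pow (K : BiK k F e) (T : Module.End k F) (hT : ∀ ω, K.D (T ω) = T (K.D ω)) (N : ℕ)
    (ω : F) : (qo K T hT ^ N) ((LinearMap.range K.D).mkQ ω)
      = (LinearMap.range K.D).mkQ ((T ^ N) ω) := by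
  induction N with
  | zero => rfl
  | succ N ih => rw [pow_succ', pow_succ', Module.End.mul_apply, ih, qo_mk, Module.End.mul_apply]

lemma sub_comm_D (C : Cmp S A o K) (x : σ) (ω : F) :
    K.D ((S.D (X o) o - S.D (X x) x) ω) = (S.D (X o) o - S.D (X x) x) (K.D ω) := by
  rw [LinearMap.sub_apply, LinearMap.sub_apply, map_sub, D_comm C, D_comm C]

lemma sl2_F1 {x : σ} :
    S.D (X o) x * S.D (X x) o - S.D (X x) o * S.D (X o) x = S.D (X o) o - S.D (X x) x := by
  rw [S.D_D (isHomogeneous_X _ _) (isHomogeneous_X _ _), pderiv_X_self, pderiv_X_self, mul_one,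
    mul_one]
  abel

lemma sl2_F2 {x : σ} (hx : x ≠ o) :
    (S.D (X o) o - S.D (X x) x) * S.D (X x) o - S.D (X x) o * (S.D (X o) o - S.D (X x) x)
      = -(2 : k) • S.D (X x) o := by
  have h1 : S.D (X o) o * S.D (X x) o = S.D (X x) o * S.D (X o) o - S.D (X x) o := by
    rw [S.D_D (isHomogeneous_X _ _) (isHomogeneous_X _ _), pderiv_X_self, mul_one,
      pderiv_X_of_ne hx, mul_zero]
    have : S.D (0 : MvPolynomial σ k) o = 0 := by
      have := S.D_smul 0 (0 : MvPolynomial σ k) o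
      simpa using this
    rw [this, add_zero]
  have h2 : S.D (X x) x * S.D (X x) o = S.D (X x) o * S.D (X x) x + S.D (X x) o := by
    rw [S.D_D (isHomogeneous_X _ _) (isHomogeneous_X _ _), pderiv_X_self, mul_one,
      pderiv_X_of_ne hx, mul_zero]
    have : S.D (0 : MvPolynomial σ k) x = 0 := by
      have := S.D_smul 0 (0 : MvPolynomial σ k) x
      simpa using this
    rw [this, sub_zero]
  rw [sub_mul, mul_sub, h1, h2, neg_smul, two_smul]
  abel

lemma Inp3.rho_oo (I : Inp3 S A o K p s b) {j : ℕ} (Q : KV S o j) {i : ℕ} (hij : i + j = b)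
    (β : Q.V) {z : F} (hz : z ∈ GZ S o K s i (2 * e + 2)) :
    K.rho (S.D (X o) o (Q.κ β z)) = ((i + 2 * j : ℕ) : k) • Q.κ β z + Q.κ (Q.DV o o β) z := by
  have h1 := congrArg (fun T : Module.End k F => T z) (Q.into β)
  simp only [Module.End.mul_apply, LinearMap.add_apply, LinearMap.smul_apply] at h1
  rw [Doo_GZ I.C hz, map_smul] at h1
  rw [h1, map_add, map_add, map_smul, map_smul, (I.kappa_Cl Q hij β hz).2.1,
    (I.kappa_Cl Q hij (Q.DV o o β) hz).2.1]
  push_cast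
  rw [add_smul]
  abel

lemma Inp3.rho_xx (I : Inp3 S A o K p s b) {j : ℕ} (Q : KV S o j) {i : ℕ} (hij : i + j = b)
    (β : Q.V) {z : F} (hz : z ∈ GZ S o K s i (2 * e + 2)) {x : σ} (hx : x ≠ o) {w : ℕ}
    (hw : S.D (X x) x z = (w : k) • z) :
    K.rho (S.D (X x) x (Q.κ β z)) = (w : k) • Q.κ β z + Q.κ (Q.DV x x β) z := by
  have h1 := congrArg (fun T : Module.End k F => T z) (Q.int x x hx β)
  simp only [Module.End.mul_apply, LinearMap.add_apply] at h1
  rw [hw, map_smul] at h1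
  rw [rho_Dxy I.C hx hx, (I.kappa_Cl Q hij β hz).2.1, h1]

/-- closure (wt) -/
lemma Inp3.NN_wt (I : Inp3 S A o K p s b) {j : ℕ} (Q : KV S o j) {i : ℕ} (hij : i + j = b)
    (hind : ∀ i', i = i' + 1 → CC S o K s i' (2 * e + 2) (j + 1) ≤ KK S A o K I)
    {z : F} (hz : z ∈ GZ S o K s i (2 * e + 2)) {x : σ} (hx : x ≠ o) {w : ℕ}
    (hiw : i + 2 * j < w) (hw : S.D (X x) x z = (w : k) • z) : z ∈ NN I Q i := by
  obtain ⟨Λ, hΛ⟩ := I.linear_lift Q hij hz
  obtain ⟨N1, hN1⟩ := Q.nil x hx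
  obtain ⟨N2, hN2⟩ := nil_D A hx (s + b) (2 * e + 2)
  have hmem : ∀ β, Λ β ∈ A.G (s + b) (2 * e + 2) := by
    intro β
    obtain ⟨u, hu, Ω, hΩ, h1, _, _⟩ := hΛ β
    rw [h1]
    refine add_mem (I.C.G_iff.mp hu).1 ?_
    refine (toBi K).FL_induction (P := fun ω => ω ∈ A.G (s + b) (2 * e + 2)) (zero_mem _)
      (fun u v hu hv => add_mem hu hv) (fun a b' ha hab u hu => ?_) hΩ
    have := (I.C.G_iff.mp hu).1
    rwa [hab] at this
  have hφ : (LinearMap.range K.D).mkQ ∘ₗ Λ = 0 := by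
    refine sl2Hom (Q.DV o x) (Q.DV x o) (Q.DV o o - Q.DV x x)
      (qo K (S.D (X o) x) (D_comm I.C o x)) (qo K (S.D (X x) o) (D_comm I.C x o))
      (qo K (S.D (X o) o - S.D (X x) x) (sub_comm_D I.C x)) (Q.rel1 x hx) (Q.rel2 x hx) ?_ ?_
      ((LinearMap.range K.D).mkQ ∘ₗ Λ) ?_ (((i + 2 * j : ℕ) : k) - (w : k)) ?_ ?_ (N1 + N2) ?_ ?_
    · refine Submodule.linearMap_qext _ (LinearMap.ext fun ω => ?_)
      rw [LinearMap.comp_apply, LinearMap.comp_apply, LinearMap.sub_apply, Module.End.mul_apply,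
        Module.End.mul_apply, qo_mk, qo_mk, qo_mk, qo_mk, qo_mk, ← map_sub, ← Module.End.mul_apply,
        ← Module.End.mul_apply, ← LinearMap.sub_apply, sl2_F1]
    · refine Submodule.linearMap_qext _ (LinearMap.ext fun ω => ?_)
      rw [LinearMap.comp_apply, LinearMap.comp_apply, LinearMap.sub_apply, Module.End.mul_apply,
        Module.End.mul_apply, LinearMap.smul_apply, qo_mk, qo_mk, qo_mk, qo_mk, ← map_sub,
        ← Module.End.mul_apply, ← Module.End.mul_apply, ← LinearMap.sub_apply, sl2_F2 hx,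
        LinearMap.smul_apply, map_smul]
    · intro β
      rw [LinearMap.comp_apply, LinearMap.comp_apply, qo_mk, ← sub_eq_zero, ← map_sub]
      rw [Submodule.mkQ_apply, Submodule.Quotient.mk_eq_zero]
      obtain ⟨v, hv, hv0, hv1⟩ := e0_kappa I.C hx Q β hz
      have h1 := ((hΛ β).op (I.ad_ox hx)).sub (hΛ (Q.DV o x β))
      rw [hv, add_sub_cancel_left] at h1
      have h2 : v ∈ KK S A o K I := by
        rcases Nat.eq_zero_or_pos i with h3 | h3
        · rw [hv0 h3]; exact zero_mem _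
        · obtain ⟨i', rfl⟩ : ∃ i', i = i' + 1 := ⟨i - 1, by omega⟩
          exact hind i' rfl (hv1 i' rfl)
      exact h2.2 _ h1
    · intro l hl
      have h1 : ((i + 2 * j : ℕ) : k) = ((w + l : ℕ) : k) := by
        rw [Nat.cast_add w l, ← hl]; ring
      have h2 := Nat.cast_injective h1
      omega
    · intro β
      rw [LinearMap.comp_apply, LinearMap.comp_apply, qo_mk, ← map_smul, ← map_add, ← sub_eq_zero,
        ← map_sub, Submodule.mkQ_apply, Submodule.Quotient.mk_eq_zero]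
      have h1 := (((hΛ β).op I.ad_oo).sub ((hΛ β).op (I.ad_xy hx hx))).sub
        ((hΛ ((Q.DV o o - Q.DV x x) β)).add ((hΛ β).smul (((i + 2 * j : ℕ) : k) - (w : k))))
      rw [I.rho_oo Q hij β hz, I.rho_xx Q hij β hz hx hw] at h1
      have h2 : ((i + 2 * j : ℕ) : k) • Q.κ β z + Q.κ (Q.DV o o β) z
          - ((w : k) • Q.κ β z + Q.κ (Q.DV x x β) z)
          - (Q.κ ((Q.DV o o - Q.DV x x) β) z
            + (((i + 2 * j : ℕ) : k) - (w : k)) • Q.κ β z) = 0 := by
        rw [LinearMap.sub_apply, map_sub, LinearMap.sub_apply, sub_smul]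
        abel
      rw [h2] at h1
      exact I.zero h1
    · intro v
      rw [pow_add, Module.End.mul_apply, ← Module.End.mul_apply, ← pow_add, add_comm, pow_add, hN1,
        mul_zero, LinearMap.zero_apply]
    · intro β
      rw [LinearMap.comp_apply, qo_pow, pow_add, Module.End.mul_apply, hN2 _ (hmem β), map_zero,
        map_zero]
  refine ⟨hz, fun β => I.of_lift (hΛ β) ?_⟩
  have h1 := congrArg (fun φ : Q.V →ₗ[k] _ => φ β) hφ
  rw [LinearMap.comp_apply, Submodule.mkQ_apply, LinearMap.zero_apply,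
    Submodule.Quotient.mk_eq_zero] at h1
  exact h1

/-! ### the claim -/

/-- all products of letters `μ o ≥ 2` with closed elements are in `KK` -/
theorem Inp3.CC_le (I : Inp3 S A o K p s b) (hSh : ShZ S o K) :
    ∀ i j : ℕ, i + j = b → CC S o K s i (2 * e + 2) j ≤ KK S A o K I := by
  have hs := I.hs
  have hsb := I.hsb
  have hp := I.hp
  intro i
  induction i with
  | zero =>
    intro j hij
    obtain ⟨Q⟩ := exists_KV S o I.he j
    have h1 : GZ S o K s 0 (2 * e + 2) ≤ NN I Q 0 := by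
      refine hSh s 0 hs (by omega) (NN I Q 0) (fun z hz x hx w hw h => ?_)
        (fun ν hν h0 z hz => I.NN_ml Q hij hz hν h0) (fun z _ hz x y hx hy => I.NN_op Q hij hz hx hy)
      exact I.NN_wt Q hij (fun i' h => absurd h (by omega)) hz hx (by omega) h
    refine (CC_le_kappa I.C Q).trans (Submodule.span_le.mpr ?_)
    rintro _ ⟨β, z, hz, rfl⟩
    exact (h1 hz).2 β
  | succ i ihi =>
    intro j hij
    obtain ⟨Q⟩ := exists_KV S o I.he j
    have h1 : GZ S o K s (i + 1) (2 * e + 2) ≤ NN I Q (i + 1) := by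
      refine hSh s (i + 1) hs (by omega) (NN I Q (i + 1)) (fun z hz x hx w hw h => ?_)
        (fun ν hν h0 z hz => I.NN_ml Q hij hz hν h0) (fun z _ hz x y hx hy => I.NN_op Q hij hz hx hy)
      refine I.NN_wt Q hij (fun i' h => ?_) hz hx (by omega) h
      obtain rfl : i' = i := by omega
      exact ihi (j + 1) (by omega)
    refine (CC_le_kappa I.C Q).trans (Submodule.span_le.mpr ?_)
    rintro _ ⟨β, z, hz, rfl⟩
    exact (h1 hz).2 β

/-- **Claim**: for `p ≤ 3 d - 3` every cycle of bidegree `(p, 2 d)` is a boundary. -/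
theorem claim (C : Cmp S A o K) (he : 1 ≤ e) {p : ℕ} (hp : p ≤ 3 * e) (H : InpK K p)
    (hSh : ShZ S o K) : ∀ s : ℕ, ∀ x ∈ (toBi K).FL s p (2 * e + 2), K.D x = 0 →
      x ∈ LinearMap.range K.D := by
  intro s
  induction s with
  | zero =>
    intro x hx _
    rw [Bi.FL_zero, Submodule.mem_bot] at hx
    rw [hx]; exact zero_mem _
  | succ s ih =>
    intro x hx hD
    rcases Nat.lt_or_ge s 2 with h2 | h2
    · obtain ⟨y, _, hy⟩ := H.thm1 (p := p) (by omega) (x := x)
        (FL_le_FS K ((toBi K).FL_mono (by omega) hx)) hD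
      exact ⟨y, hy⟩
    · rcases Nat.lt_or_ge p s with h3 | h3
      · exact ih x ((toBi K).FL_succ_lt h3 hx) hD
      · obtain ⟨b, hb⟩ : ∃ b, s + b = p := ⟨p - s, by omega⟩
        subst hb
        have I : Inp3 S A o K (s + b) s b := ⟨C, he, hp, H, h2, rfl, ih⟩
        obtain ⟨x1, hx1, Ω, hΩ, rfl⟩ := (toBi K).FL_succ (s := s) (m := b) rfl hx
        have h4 : LT K s b (K.rho x1) (x1 + Ω) := ⟨x1, hx1, Ω, hΩ, rfl, hD, rfl⟩
        have h5 : Cl K s b (2 * e + 2) ≤ KK S A o K I := by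
          refine (peel C s b (2 * e + 2)).trans ?_
          exact iSup_le fun j => iSup_le fun i => iSup_le fun hij => I.CC_le hSh i j hij
        exact (h5 h4.closed).2 _ h4

end main

end Pool.Agent.H12.OP
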