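import Pool.Agent.H12.OP.T5a
import Pool.Agent.H12.OP.T4

set_option autoImplicit false
set_option linter.unusedSectionVars false

/-!
# Full Ottaviani-Paoletti, part (T5): the recursion step from the shape theorem

`final` : if the shape theorem holds for the bi-closed elements, every cycle of bidegree
`(p, 2 d)`, `p ≤ 3 d - 3`, is a boundary.
-/

open MvPolynomial

namespace Pool.Agent.H12.OP

open Pool.Agent.H27.OP Pool.Agent.H80.OP Pool.Agent.H20.OPF Pool.Agent.H40.OP Pool.Agent.H40.OPR

variable {σ k F : Type} [Fintype σ] [Field k] [AddCommGroup F] [Module k F] {e : ℕ}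
variable {S : Fk σ k (Module.End k F) (e + 1)} {A : Gr S} {o : σ} {K : BiK k F e}

/-- a form without `x_o` is a combination of monomials without `x_o` -/
lemma form_mem [CharZero k] {q : MvPolynomial σ k} (hq : q.IsHomogeneous (e + 1))
    (h0 : pderiv o q = 0) {z : F} {N : Submodule k F}
    (h : ∀ ν ∈ Mo σ (e + 1), ν o = 0 → S.m (monomial ν 1) z ∈ N) : S.m q z ∈ N := by
  classical
  have h1 : q = ∑ ν ∈ q.support, coeff ν q • monomial ν (1 : k) := by
    conv_lhs => rw [q.as_sum]
    refine Finset.sum_congr rfl fun ν _ => ?_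
    rw [smul_monomial, smul_eq_mul, mul_one]
  rw [h1, map_sum, LinearMap.sum_apply]
  refine Submodule.sum_mem _ fun ν hν => ?_
  rw [map_smul, LinearMap.smul_apply]
  refine Submodule.smul_mem _ _ (h ν (mem_Mo.mpr ?_) ?_)
  · rw [Finsupp.degree_eq_weight_one]
    exact hq (mem_support_iff.mp hν)
  · by_contra h3
    have h4 : coeff (ν - Finsupp.single o 1) (pderiv o q) = 0 := by rw [h0, coeff_zero]
    have h5 : ν - Finsupp.single o 1 + Finsupp.single o 1 = ν := by
      ext y
      by_cases hy : y = o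
      · subst hy
        simp only [Finsupp.coe_add, Finsupp.coe_tsub, Pi.add_apply, Pi.sub_apply,
          Finsupp.single_eq_same]
        omega
      · simp [Finsupp.single_eq_of_ne hy]
    rw [coeff_pderiv, h5] at h4
    rcases mul_eq_zero.mp h4 with h6 | h6
    · exact mem_support_iff.mp hν h6
    · have h7 : (((ν - Finsupp.single o 1 : σ →₀ ℕ) o + 1 : ℕ) : k) = 0 := by
        push_cast
        exact h6
      rw [Nat.cast_eq_zero] at h7
      omega

/-- the shape theorem in the language of `K` -/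
theorem shZ_of_shape [CharZero k] (C : Cmp S A o K) (h : ShapeStatement A o) : ShZ S o K := by
  intro s i hs hsi N hw hm hop
  have h1 : Ga A o s i (2 * (e + 1)) ≤ N ⊓ GZ S o K s i (2 * e + 2) := by
    refine h s i hs (by omega) _ ?_ ?_ ?_
    · intro x y hx hy z hz
      obtain ⟨h2, h3⟩ := Submodule.mem_inf.mp hz
      exact Submodule.mem_inf.mpr ⟨hop z h3 h2 x y hx hy, Dxy_GZ C hx hy h3⟩
    · intro z hz x hx w hw1 hw2
      have h3 := (mem_Ga_iff C).mp hz
      exact Submodule.mem_inf.mpr ⟨hw z h3 x hx w (by omega) hw2, h3⟩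
    · intro q hq h0 z hz
      have h3 := (mem_Ga_iff C).mp hz
      refine form_mem hq h0 fun ν hν hν0 => Submodule.mem_inf.mpr ⟨hm ν hν hν0 z h3, ?_⟩
      obtain ⟨Q⟩ := exists_KV S o (e := e) (by omega) 0
      have h4 := (mul_kappa C Q 0 h3 hν hν0).1
      rwa [show e + 1 + (e + 1) = 2 * e + 2 by ring] at h4
  intro z hz
  exact (Submodule.mem_inf.mp (h1 ((mem_Ga_iff C).mpr hz))).1

/-- **the recursion step**: `Cmp`, `InpK` and the shape theorem give exactness at `(p, 2 d)`. -/
theorem final [CharZero k] (C : Cmp S A o K) (he : 1 ≤ e) {p : ℕ} (hp : p ≤ 3 * e)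
    (H : InpK K p) (h : ShapeStatement A o) {x : F} (hx : x ∈ A.G p (2 * e + 2))
    (hD : S.del x = 0) : x ∈ LinearMap.range S.del := by
  obtain ⟨y, hy⟩ := claim C he hp H (shZ_of_shape C h) (p + 1) x (G_le_FL C p _ hx)
    (by rw [D_eq C, hD])
  exact ⟨y, by rw [← D_eq C, hy]⟩

end Pool.Agent.H12.OP
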