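import Pool.Agent.H12.OP.T2e
import Pool.Agent.H40.OP.Lift

set_option autoImplicit false
set_option linter.unusedSectionVars false

/-!
# Full Ottaviani-Paoletti, part (T5a): `GZ = Ga`, weights of `GZ`
-/

open MvPolynomial

namespace Pool.Agent.H12.OP

open Pool.Agent.H27.OP Pool.Agent.H80.OP Pool.Agent.H20.OPF Pool.Agent.H40.OP Pool.Agent.H40.OPR

variable {σ k F : Type} [Fintype σ] [Field k] [AddCommGroup F] [Module k F] {e : ℕ}
variable {S : Fk σ k (Module.End k F) (e + 1)} {A : Gr S} {o : σ} {K : BiK k F e}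

/-- weight of `X o` on elements without `x_o` in the coefficients and without letters `μ o ≥ 2` -/
lemma Doo_N1 {z : F} (hT : S.T o z = 0) (h2 : ∀ μ ∈ Mo σ (e + 1), 2 ≤ μ o → S.J μ z = 0) :
    S.D (X o) o z = N1 S o z := by
  classical
  rw [D_diag, hT, map_zero, zero_add, N1, LinearMap.sum_apply, Finset.sum_filter]
  refine Finset.sum_congr rfl fun μ hμ => ?_
  rcases Nat.lt_trichotomy (μ o) 1 with h | h | h
  · rw [if_neg (by omega), show μ o = 0 by omega, Nat.cast_zero, zero_smul]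
  · rw [if_pos h, h, Nat.cast_one, one_smul, Module.End.mul_apply]
  · rw [if_neg (by omega), h2 μ hμ h, map_zero, smul_zero]

lemma N0_N1 {s i m : ℕ} {z : F} (hz : z ∈ A.G (s + i) m)
    (h2 : ∀ μ ∈ Mo σ (e + 1), 2 ≤ μ o → S.J μ z = 0) :
    N0 S o z + N1 S o z = ((s : k) + (i : k)) • z := by
  classical
  rw [← Nat.cast_add, ← A.num hz, N0, N1, LinearMap.sum_apply, LinearMap.sum_apply,
    Finset.sum_filter, Finset.sum_filter, ← Finset.sum_add_distrib]
  refine Finset.sum_congr rfl fun μ hμ => ?_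
  rcases Nat.lt_trichotomy (μ o) 1 with h | h | h
  · rw [if_pos (by omega), if_neg (by omega), add_zero, Module.End.mul_apply]
  · rw [if_neg (by omega), if_pos h, zero_add, Module.End.mul_apply]
  · rw [if_neg (by omega), if_neg (by omega), h2 μ hμ h, map_zero, add_zero]

lemma N0_iff {s i m : ℕ} {z : F} (hz : z ∈ A.G (s + i) m) (hT : S.T o z = 0)
    (h2 : ∀ μ ∈ Mo σ (e + 1), 2 ≤ μ o → S.J μ z = 0) :
    N0 S o z = (s : k) • z ↔ S.D (X o) o z = (i : k) • z := by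
  have h3 := N0_N1 hz h2
  rw [Doo_N1 hT h2]
  rw [add_smul] at h3
  constructor
  · intro h
    rw [h] at h3
    exact add_left_cancel h3
  · intro h
    rw [h] at h3
    exact add_right_cancel h3

section cmp

variable (C : Cmp S A o K)

include C

lemma rho_iff (z : F) : K.rho z = z ↔ S.T o z = 0 :=
  ⟨fun h => by rw [← h, C.T_rho], fun h => C.rho_of_T z h⟩

lemma dA_d1 {z : F} (h2 : ∀ μ ∈ Mo σ (e + 1), 2 ≤ μ o → S.J μ z = 0) :
    K.dA z = d1 S o z := by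
  have h3 : d2 S o z = 0 := by
    rw [d2, LinearMap.sum_apply]
    refine Finset.sum_eq_zero fun μ hμ => ?_
    obtain ⟨h4, h5⟩ := Finset.mem_filter.mp hμ
    rw [Module.End.mul_apply, h2 μ h4 h5, map_zero]
  rw [C.dA_eq, dA_eq_d1_d2, LinearMap.add_apply, Module.End.mul_apply, h3, map_zero, add_zero]

lemma rho_d1 (z : F) : K.rho (d1 S o z) = d1 S o (K.rho z) := by
  rw [d1, LinearMap.sum_apply, LinearMap.sum_apply, map_sum]
  refine Finset.sum_congr rfl fun μ hμ => ?_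
  obtain ⟨h4, h5⟩ := Finset.mem_filter.mp hμ
  rw [Module.End.mul_apply, Module.End.mul_apply, c_rho_mon C, c_rho_J C]
  rw [Finsupp.tsub_apply, h5, Finsupp.single_eq_same]

/-- the bi-closed elements are the same in both languages -/
theorem mem_Ga_iff {s i m : ℕ} {z : F} : z ∈ Ga A o s i m ↔ z ∈ GZ S o K s i m := by
  rw [mem_Ga, mem_Gm, mem_GZ, mem_Cl, C.G_iff, rho_iff C]
  constructor
  · rintro ⟨⟨h1, h2, h3, h4⟩, h5, h6⟩
    refine ⟨⟨⟨h1, (N0_iff h1 h2 h3).mpr h4⟩, h2, by rw [C.dS_eq, h5], ?_⟩, h3⟩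
    rw [dA_d1 C h3, h6, map_zero]
  · rintro ⟨⟨⟨h1, h4⟩, h2, h5, h6⟩, h3⟩
    refine ⟨⟨h1, h2, h3, (N0_iff h1 h2 h3).mp h4⟩, by rw [← C.dS_eq, h5], ?_⟩
    rw [dA_d1 C h3, rho_d1 C, (rho_iff C z).mpr h2] at h6
    exact h6

theorem Ga_eq (s i m : ℕ) : Ga A o s i m = GZ S o K s i m :=
  Submodule.ext fun _ => mem_Ga_iff C

theorem Doo_GZ' {s i m : ℕ} {z : F} (h : z ∈ GZ S o K s i m) :
    S.D (X o) o z = (i : k) • z :=
  ((mem_Ga_iff C).mpr h).1.2.2.2

end cmp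

/-! ### decomposition into the `K.G a b m` -/

theorem G_le_FL [CharZero k] (C : Cmp S A o K) (p m : ℕ) :
    A.G p m ≤ (toBi K).FL (p + 1) p m := by
  classical
  intro ω hω
  have h1 := jeig (nop S) (nix σ (e + 1)) (A.G p m) (fun i _ w hw => nop_mem A i hw)
    (fun i hi w hw => nop_LF A hi hw) (fun i hi j hj => nop_comm hi hj) hω
  refine (Submodule.span_le.mpr ?_) h1
  rintro v ⟨hv, hv'⟩
  by_cases hv0 : v = 0
  · rw [hv0]; exact zero_mem _
  have h3 : ∀ μ : σ →₀ ℕ, ∃ n : ℕ, μ ∈ Mo σ (e + 1) → S.E μ (S.J μ v) = (n : k) • v := by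
    intro μ
    by_cases hμ : μ ∈ Mo σ (e + 1)
    · obtain ⟨n, hn⟩ := hv' (Sum.inl μ) (mem_nix_inl.mpr hμ)
      exact ⟨n, fun _ => hn⟩
    · exact ⟨0, fun h => absurd h hμ⟩
  choose n hn using h3
  have h4 : (∑ μ ∈ Mo σ (e + 1), n μ : ℕ) = p := by
    have h5 := A.num hv
    rw [Finset.sum_congr rfl hn, ← Finset.sum_smul, ← Nat.cast_sum, ← sub_eq_zero, ← sub_smul] at h5
    exact Nat.cast_injective (sub_eq_zero.mp ((smul_eq_zero.mp h5).resolve_right hv0))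
  obtain ⟨c, hc⟩ : ∃ c : ℕ, c = ∑ μ ∈ (Mo σ (e + 1)).filter (fun μ => μ o = 0), n μ := ⟨_, rfl⟩
  have h6 : c ≤ p := by
    rw [← h4, hc]
    exact Finset.sum_le_sum_of_subset (Finset.filter_subset _ _)
  have h7 : N0 S o v = (c : k) • v := by
    rw [N0, LinearMap.sum_apply, hc, Nat.cast_sum, Finset.sum_smul]
    refine Finset.sum_congr rfl fun μ hμ => ?_
    rw [Module.End.mul_apply, hn μ (Finset.mem_filter.mp hμ).1]
  obtain ⟨b, hb⟩ := Nat.exists_eq_add_of_le h6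
  have h8 : v ∈ K.G c b m := C.G_iff.mpr ⟨hb ▸ hv, h7⟩
  have h9 : K.G c b m ≤ (toBi K).FL (p + 1) p m := (toBi K).G_le_FL (by omega) hb.symm
  exact h9 h8

end Pool.Agent.H12.OP
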