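import Pool.Agent.H27.OP.Car

set_option autoImplicit false
set_option linter.unusedSectionVars false

/-!
# MP_85ff8f_ag: transfer of exactness to complexes with passive letters

`Ex σ k e i m`: the Koszul complex of a basis of the forms of degree `e` is exact at exterior
degree `i` and coefficient degree `m + e` (the primitive has coefficient degree `m`).

`dlt A g` is the Koszul differential on `Finset (Fin N) → P` in which only the letters in `A` are
active, the letter `b` being mapped to `g b`.
-/

open MvPolynomial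

namespace Pool.Agent.H12.OP

open Pool.Agent.H27.OP

variable {k : Type*} [Field k]

lemma hom_smul' {σ : Type*} {m : ℕ} {f : MvPolynomial σ k} (h : f.IsHomogeneous m) (t : k) :
    (t • f).IsHomogeneous m := by
  rw [smul_eq_C_mul]; exact h.C_mul t

/-- Koszul differential of a family, all letters active -/
noncomputable def dK {σ : Type*} {n : ℕ} (φ : Fin n → MvPolynomial σ k)
    (f : Finset (Fin n) → MvPolynomial σ k) : Finset (Fin n) → MvPolynomial σ k :=
  fun J => ∑ j, φ j * aJ k j f J

/-- exactness at exterior degree `i`, coefficient degree `m + e` -/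
def Ex (σ k : Type*) [Field k] (e i m : ℕ) : Prop :=
  ∀ (n : ℕ) (φ : Fin n → MvPolynomial σ k), (∀ j, (φ j).IsHomogeneous e) →
    LinearIndependent k φ → homogeneousSubmodule σ k e ≤ Submodule.span k (Set.range φ) →
    ∀ f : Finset (Fin n) → MvPolynomial σ k, (∀ I, (f I).IsHomogeneous (m + e)) →
      (∀ I, I.card ≠ i → f I = 0) → dK φ f = 0 →
      ∃ g : Finset (Fin n) → MvPolynomial σ k, (∀ I, (g I).IsHomogeneous m) ∧
        (∀ I, I.card ≠ i + 1 → g I = 0) ∧ dK φ g = f

/-- Koszul differential with active letters `A` -/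
noncomputable def dlt {σ : Type*} {N : ℕ} (A : Finset (Fin N)) (g : Fin N → MvPolynomial σ k)
    (f : Finset (Fin N) → MvPolynomial σ k) : Finset (Fin N) → MvPolynomial σ k :=
  fun J => ∑ b ∈ A, g b * aJ k b f J

section split

variable {N : ℕ} (A : Finset (Fin N))

/-- the enumeration of the active letters -/
noncomputable def io : Fin A.card ↪o Fin N := A.orderEmbOfFin rfl

lemma io_mem (j : Fin A.card) : io A j ∈ A := A.orderEmbOfFin_mem rfl j

lemma exists_io {b : Fin N} (hb : b ∈ A) : ∃ j, io A j = b := by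
  have h := A.range_orderEmbOfFin rfl
  have h1 : b ∈ Set.range (A.orderEmbOfFin rfl) := by rw [h]; exact hb
  exact h1

/-- the active part of a set of letters -/
noncomputable def pb (J : Finset (Fin N)) : Finset (Fin A.card) :=
  Finset.univ.filter fun j => io A j ∈ J

lemma mem_pb {J : Finset (Fin N)} {j : Fin A.card} : j ∈ pb A J ↔ io A j ∈ J := by
  simp [pb]

/-- join of an active part and a passive part -/
noncomputable def jn (I : Finset (Fin A.card)) (S : Finset (Fin N)) : Finset (Fin N) :=
  I.map (io A).toEmbedding ∪ (S \ A)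

lemma jn_pb (J : Finset (Fin N)) : jn A (pb A J) J = J := by
  ext b
  simp only [jn, Finset.mem_union, Finset.mem_map, mem_pb, Finset.mem_sdiff,
    RelEmbedding.coe_toEmbedding]
  constructor
  · rintro (⟨j, h, rfl⟩ | h)
    · exact h
    · exact h.1
  · intro h
    by_cases hb : b ∈ A
    · obtain ⟨j, rfl⟩ := exists_io A hb
      exact Or.inl ⟨j, h, rfl⟩
    · exact Or.inr ⟨h, hb⟩

lemma pb_jn (I : Finset (Fin A.card)) (S : Finset (Fin N)) : pb A (jn A I S) = I := by
  ext j
  simp only [jn, Finset.mem_union, Finset.mem_map, mem_pb, Finset.mem_sdiff,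
    RelEmbedding.coe_toEmbedding]
  constructor
  · rintro (⟨j', h, h'⟩ | h)
    · rwa [← (io A).injective h']
    · exact absurd (io_mem A j) h.2
  · intro h
    exact Or.inl ⟨j, h, rfl⟩

lemma jn_sdiff (I : Finset (Fin A.card)) (S : Finset (Fin N)) : jn A I S \ A = S \ A := by
  ext b
  simp only [jn, Finset.mem_union, Finset.mem_map, Finset.mem_sdiff,
    RelEmbedding.coe_toEmbedding]
  constructor
  · rintro ⟨⟨j, _, rfl⟩ | h, h'⟩
    · exact absurd (io_mem A j) h'
    · exact h
  · intro h
    exact ⟨Or.inr h, h.2⟩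

lemma card_pb (J : Finset (Fin N)) : (pb A J).card = (J ∩ A).card := by
  rw [← Finset.card_map (io A).toEmbedding]
  congr 1
  ext b
  simp only [Finset.mem_map, mem_pb, Finset.mem_inter, RelEmbedding.coe_toEmbedding]
  constructor
  · rintro ⟨j, h, rfl⟩
    exact ⟨h, io_mem A j⟩
  · rintro ⟨h, h'⟩
    obtain ⟨j, rfl⟩ := exists_io A h'
    exact ⟨j, h, rfl⟩

lemma pb_insert (J : Finset (Fin N)) (j : Fin A.card) :
    pb A (insert (io A j) J) = insert j (pb A J) := by
  ext j'
  simp only [mem_pb, Finset.mem_insert, EmbeddingLike.apply_eq_iff_eq]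

/-- splitting of the sign -/
lemma sgn_split (J : Finset (Fin N)) (j : Fin A.card) :
    sgn k J (io A j) = sgn k (pb A J) j * sgn k (J \ A) (io A j) := by
  unfold sgn
  rw [← pow_add]
  congr 1
  rw [← Finset.card_map (io A).toEmbedding, ← Finset.card_union_of_disjoint]
  · congr 1
    ext b
    simp only [Finset.mem_filter, Finset.mem_union, Finset.mem_map, mem_pb, Finset.mem_sdiff,
      RelEmbedding.coe_toEmbedding]
    constructor
    · rintro ⟨h, h'⟩
      by_cases hb : b ∈ A
      · obtain ⟨j', rfl⟩ := exists_io A hb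
        exact Or.inl ⟨j', ⟨h, (io A).lt_iff_lt.mp h'⟩, rfl⟩
      · exact Or.inr ⟨⟨h, hb⟩, h'⟩
    · rintro (⟨j', ⟨h, h'⟩, rfl⟩ | h)
      · exact ⟨h, (io A).lt_iff_lt.mpr h'⟩
      · exact ⟨h.1.1, h.2⟩
  · rw [Finset.disjoint_left]
    intro b hb
    simp only [Finset.mem_filter, Finset.mem_map, mem_pb, Finset.mem_sdiff,
      RelEmbedding.coe_toEmbedding] at hb ⊢
    obtain ⟨j', _, rfl⟩ := hb
    intro h
    exact h.1.2 (io_mem A j')

/-- the twist -/
noncomputable def ep (k : Type*) [Field k] (S : Finset (Fin N)) (I : Finset (Fin A.card)) : k :=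
  ∏ j ∈ I, sgn k (S \ A) (io A j)

lemma ep_sq (S : Finset (Fin N)) (I : Finset (Fin A.card)) : ep A k S I * ep A k S I = 1 := by
  unfold ep
  rw [← Finset.prod_mul_distrib]
  exact Finset.prod_eq_one fun j _ => sgn_sq _ _

lemma ep_insert (S : Finset (Fin N)) (I : Finset (Fin A.card)) {j : Fin A.card} (hj : j ∉ I) :
    ep A k S (insert j I) = sgn k (S \ A) (io A j) * ep A k S I := by
  unfold ep
  rw [Finset.prod_insert hj]

lemma ep_congr {S S' : Finset (Fin N)} (h : S \ A = S' \ A) (I : Finset (Fin A.card)) :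
    ep A k S I = ep A k S' I := by
  unfold ep
  rw [h]

end split

section transfer

variable {σ : Type*} {N : ℕ} (A : Finset (Fin N)) (g : Fin N → MvPolynomial σ k)

/-- the restriction of `f` to a fixed passive part -/
noncomputable def rst (f : Finset (Fin N) → MvPolynomial σ k) (S : Finset (Fin N)) :
    Finset (Fin A.card) → MvPolynomial σ k :=
  fun I => ep A k S I • f (jn A I S)

lemma rst_congr (f : Finset (Fin N) → MvPolynomial σ k) {S S' : Finset (Fin N)}
    (h : S \ A = S' \ A) : rst A f S = rst A f S' := by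
  funext I
  unfold rst jn
  rw [ep_congr A h, h]

/-- the differential acts on every passive part separately -/
lemma rst_dlt (f : Finset (Fin N) → MvPolynomial σ k) (S : Finset (Fin N)) :
    rst A (dlt A g f) S = dK (fun j => g (io A j)) (rst A f S) := by
  funext I
  unfold rst dlt dK
  have h1 : ∀ F : Fin N → MvPolynomial σ k, ∑ b ∈ A, F b = ∑ j : Fin A.card, F (io A j) := by
    intro F
    symm
    refine Finset.sum_bij (fun j _ => io A j) (fun j _ => io_mem A j) ?_ ?_ (fun _ _ => rfl)
    · intro j _ j' _ h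
      exact (io A).injective h
    · intro b hb
      obtain ⟨j, hj⟩ := exists_io A hb
      exact ⟨j, Finset.mem_univ _, hj⟩
  rw [h1, Finset.smul_sum]
  refine Finset.sum_congr rfl fun j _ => ?_
  have h2 : io A j ∈ jn A I S ↔ j ∈ I := by
    rw [← mem_pb, pb_jn]
  rw [aJ_apply, aJ_apply]
  by_cases hj : j ∈ I
  · rw [if_pos hj, if_pos (h2.mpr hj), mul_zero]
    exact smul_zero _
  · rw [if_neg hj, if_neg (fun h => hj (h2.mp h)), sgn_split, pb_jn, jn_sdiff]
    have h3 : jn A (insert j I) S = insert (io A j) (jn A I S) := by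
      unfold jn
      rw [Finset.map_insert, Finset.insert_union]
      rfl
    rw [h3, ep_insert A S I hj, mul_smul_comm, mul_smul_comm, smul_smul]
    show _ = sgn k I j • (g (io A j) * (_ • f (insert (io A j) (jn A I S))))
    rw [mul_smul_comm, smul_smul]
    congr 1
    ring

/-- **Transfer of exactness.** -/
theorem transfer {e i m : ℕ} (hEx : Ex σ k e i m)
    (hg : ∀ b ∈ A, (g b).IsHomogeneous e)
    (hli : LinearIndependent k fun b : A => g b)
    (hsp : homogeneousSubmodule σ k e ≤ Submodule.span k (g '' A))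
    (f : Finset (Fin N) → MvPolynomial σ k) (hf : ∀ I, (f I).IsHomogeneous (m + e))
    (hcard : ∀ I, (I ∩ A).card ≠ i → f I = 0) (hd : dlt A g f = 0) :
    ∃ ξ : Finset (Fin N) → MvPolynomial σ k, (∀ I, (ξ I).IsHomogeneous m) ∧
      (∀ I, (I ∩ A).card ≠ i + 1 → ξ I = 0) ∧
      (∀ I, (∀ I', I' \ A = I \ A → f I' = 0) → ξ I = 0) ∧ dlt A g ξ = f := by
  classical
  have hli' : LinearIndependent k fun j : Fin A.card => g (io A j) := by
    have h1 : (fun j : Fin A.card => g (io A j))
        = (fun b : A => g b) ∘ (fun j : Fin A.card => (⟨io A j, io_mem A j⟩ : A)) := rfl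
    rw [h1]
    refine hli.comp _ fun j j' h => ?_
    exact (io A).injective (congrArg Subtype.val h)
  have hsp' : homogeneousSubmodule σ k e
      ≤ Submodule.span k (Set.range fun j : Fin A.card => g (io A j)) := by
    refine hsp.trans (Submodule.span_mono ?_)
    rintro _ ⟨b, hb, rfl⟩
    obtain ⟨j, rfl⟩ := exists_io A hb
    exact ⟨j, rfl⟩
  have key : ∀ S : Finset (Fin N), ∃ ξ : Finset (Fin A.card) → MvPolynomial σ k,
      (∀ I, (ξ I).IsHomogeneous m) ∧ (∀ I, I.card ≠ i + 1 → ξ I = 0) ∧
      (rst A f S = 0 → ξ = 0) ∧ dK (fun j => g (io A j)) ξ = rst A f S := by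
    intro S
    by_cases h0 : rst A f S = 0
    · refine ⟨0, fun I => isHomogeneous_zero _ _ _, fun I _ => rfl, fun _ => rfl, ?_⟩
      rw [h0]
      funext J
      unfold dK
      refine Finset.sum_eq_zero fun j _ => ?_
      rw [map_zero]
      exact mul_zero _
    · have c1 : ∀ I, I.card ≠ i → rst A f S I = 0 := by
        intro I hI
        unfold rst
        rw [hcard, smul_zero]
        rwa [← card_pb, pb_jn]
      have c2 : dK (fun j => g (io A j)) (rst A f S) = 0 := by
        rw [← rst_dlt, hd]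
        funext I
        exact smul_zero _
      obtain ⟨ξ, h1, h2, h3⟩ := hEx A.card (fun j => g (io A j)) (fun j => hg _ (io_mem A j))
        hli' hsp' (rst A f S) (fun I => hom_smul' (hf _) _) c1 c2
      exact ⟨ξ, h1, h2, fun h => absurd h h0, h3⟩
  choose Ξ hΞ1 hΞ2 hΞ3 hΞ4 using fun S : Finset (Fin N) => key S
  have hss : ∀ S : Finset (Fin N), (S \ A) \ A = S \ A := fun S => by
    rw [sdiff_sdiff, sup_idem]
  obtain ⟨ξ, hξ⟩ : ∃ ξ : Finset (Fin N) → MvPolynomial σ k,
      ∀ J, ξ J = ep A k J (pb A J) • Ξ (J \ A) (pb A J) := ⟨_, fun J => rfl⟩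
  have hr : ∀ S, rst A ξ S = Ξ (S \ A) := by
    intro S
    funext I
    unfold rst
    rw [hξ, pb_jn, jn_sdiff, smul_smul, ep_congr A (jn_sdiff A I S), ep_sq, one_smul]
  refine ⟨ξ, ?_, ?_, ?_, ?_⟩
  · intro I
    rw [hξ]
    exact hom_smul' (hΞ1 _ _) _
  · intro I hI
    rw [hξ, hΞ2, smul_zero]
    rwa [card_pb]
  · intro I hI
    have h1 : rst A f (I \ A) = 0 := by
      funext I'
      unfold rst
      rw [hI, smul_zero]
      · rfl
      · rw [jn_sdiff, hss]
    rw [hξ, hΞ3 _ h1]
    exact smul_zero _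
  · have h1 : ∀ S, rst A (dlt A g ξ) S = rst A f S := by
      intro S
      rw [rst_dlt, hr, hΞ4, rst_congr A f (hss S)]
    funext J
    have h2 := congrFun (h1 J) (pb A J)
    unfold rst at h2
    rw [jn_pb] at h2
    have h3 := congrArg (fun x => ep A k J (pb A J) • x) h2
    simp only [smul_smul, ep_sq, one_smul] at h3
    exact h3

end transfer

end Pool.Agent.H12.OP
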